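import Pool.Agent.H42EE.Universal

set_option autoImplicit false

namespace Pool.Agent.H42EE

open MvPolynomial MonomialOrder

variable {n d : ℕ}

/-- the weights of the variables -/
noncomputable abbrev w (n d : ℕ) : Vr n d → ℕ := wt (Sum.inl : Fin n → Vr n d)

lemma w_inl (j : Fin n) : w n d (Sum.inl j) = 1 := wt_z j

lemma w_inr (m : Exponent n d) : w n d (Sum.inr m) = 0 := wt_other (by simp)

lemma weight_sum (s : Vr n d →₀ ℕ) : Finsupp.weight (w n d) s = ∑ j, s (Sum.inl j) :=
  weight_eq Sum.inl_injective s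

lemma U_hom : IsWeightedHomogeneous (w n d) (U n d) d := by
  rw [U_eq]
  apply Submodule.sum_mem (weightedHomogeneousSubmodule ℂ (w n d) d)
  intro m _
  rw [mem_weightedHomogeneousSubmodule]
  apply isWeightedHomogeneous_monomial
  rw [weight_sum]
  simp_rw [E_inl]
  exact m.2

lemma UF_hom (hd : 1 ≤ d) (j : Fin n) : IsWeightedHomogeneous (w n d) (UF (d := d) j) (d - 1) := by
  apply U_hom.pderiv
  rw [w_inl]
  omega

lemma UM_hom (hd : 2 ≤ d) (i j : Fin n) :
    IsWeightedHomogeneous (w n d) (UM (d := d) i j) (d - 1 - 1) := by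
  apply (UF_hom (by omega) j).pderiv
  rw [w_inl]
  omega

lemma UH_hom (hd : 2 ≤ d) : IsWeightedHomogeneous (w n d) (UH n d) (n * (d - 1 - 1)) := by
  unfold UH
  rw [Matrix.det_apply]
  apply Submodule.sum_mem (weightedHomogeneousSubmodule ℂ (w n d) _)
  intro π _
  have h1 : IsWeightedHomogeneous (w n d) (∏ i, UM (d := d) (π i) i)
      (∑ _i : Fin n, (d - 1 - 1)) :=
    IsWeightedHomogeneous.prod _ _ _ (fun i _ => UM_hom hd (π i) i)
  rw [Finset.sum_const, Finset.card_univ, Fintype.card_fin, smul_eq_mul] at h1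
  rcases Int.units_eq_one_or (Equiv.Perm.sign π) with h | h
  · rw [h, one_smul]; exact h1
  · rw [h, Units.neg_smul, one_smul]
    exact Submodule.neg_mem _ h1

/-- the ideal of the partial derivatives -/
noncomputable abbrev UI (n d : ℕ) : Ideal (MvPolynomial (Vr n d) ℂ) :=
  Ideal.span (Set.range (UF (n := n) (d := d)))

lemma UF_mem (j : Fin n) : UF (d := d) j ∈ UI n d := Ideal.subset_span ⟨j, rfl⟩

lemma euler {k : ℕ} {p : MvPolynomial (Vr n d) ℂ} (h : IsWeightedHomogeneous (w n d) p k) :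
    ∑ j, X (Sum.inl j) * pderiv (Sum.inl j) p = C (k : ℂ) * p := by
  have h1 := h.sum_weight_X_mul_pderiv
  rw [Fintype.sum_sum_type] at h1
  simp only [w_inl, w_inr, one_smul, zero_smul, Finset.sum_const_zero, add_zero] at h1
  rw [h1]
  simp

lemma U_mem (hd : 1 ≤ d) : U n d ∈ UI n d := by
  have h1 := euler (U_hom (n := n) (d := d))
  have h2 : C ((d : ℂ)⁻¹) * (C (d : ℂ) * U n d) ∈ UI n d := by
    rw [← h1]
    apply Ideal.mul_mem_left
    exact Ideal.sum_mem _ (fun j _ => Ideal.mul_mem_left _ _ (UF_mem j))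
  rwa [← mul_assoc, ← C_mul, inv_mul_cancel₀ (by exact_mod_cast (by omega : d ≠ 0)), C_1,
    one_mul] at h2

lemma UH_mem (hd : 2 ≤ d) (j : Fin n) : X (Sum.inl j) * UH n d ∈ UI n d := by
  set M : Matrix (Fin n) (Fin n) (MvPolynomial (Vr n d) ℂ) :=
    Matrix.of fun i j : Fin n => UM (d := d) i j with hM
  -- row vector `z M`
  have h1 : ∀ l, ∑ i, X (Sum.inl i) * M i l = C ((d - 1 : ℕ) : ℂ) * UF (d := d) l := by
    intro l
    exact euler (UF_hom (by omega) l)
  have h2 : Matrix.vecMul (Matrix.vecMul (fun i => X (Sum.inl i)) M) M.adjugate j ∈ UI n d := by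
    rw [Matrix.vecMul, dotProduct]
    apply Ideal.sum_mem
    intro l _
    apply Ideal.mul_mem_right
    change ∑ i, X (Sum.inl i) * M i l ∈ UI n d
    rw [h1]
    exact Ideal.mul_mem_left _ _ (UF_mem l)
  rw [Matrix.vecMul_vecMul, Matrix.mul_adjugate, Matrix.vecMul_smul, Matrix.vecMul_one] at h2
  rw [Pi.smul_apply, smul_eq_mul, mul_comm] at h2
  exact h2

lemma exists_setup (hn : 1 ≤ n) (hd : 2 ≤ d) : ∃ m : MonomialOrder.{0, 0} (Vr n d),
    Setup m Sum.inl (fun j => Sum.inr (spe d j)) (d - 1) (UF (n := n) (d := d)) ∧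
    UH n d ≠ 0 ∧ m.degree (UH n d) =
    ∑ j, (Finsupp.single (Sum.inr (spe d j)) 1 + Finsupp.single (Sum.inl j) (d - 1 - 1)) := by
  have hinj : Function.Injective (fun j : Fin n => (Sum.inr (spe d j) : Vr n d)) :=
    fun i j h => spe_inj (by omega) (Sum.inr_injective h)
  obtain ⟨m, hm⟩ := exists_order (Vr n d) (fun j : Fin n => (Sum.inr (spe d j) : Vr n d)) hinj
  refine ⟨m, ⟨hn, by omega, Sum.inl_injective, hinj, by simp, fun i => UF_ne_zero (by omega) i,
    fun i => ?_⟩, degree_UH m hm hn hd⟩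
  rw [degree_UF m hm (by omega)]

lemma exists_of_weight_zero {c : MvPolynomial (Vr n d) ℂ}
    (h : IsWeightedHomogeneous (w n d) c 0) :
    ∃ P : MvPolynomial (Exponent n d) ℂ, rename Sum.inr P = c := by
  classical
  apply exists_rename_eq_of_vars_subset_range c Sum.inr Sum.inr_injective
  intro x hx
  rw [Finset.mem_coe, mem_vars_iff_mem_support] at hx
  obtain ⟨s, hs, hxs⟩ := hx
  have h1 := h (mem_support_iff.1 hs)
  rw [weight_sum] at h1
  rcases x with j | m
  · exfalso
    have h2 := (Finset.sum_eq_zero_iff.1 h1) j (Finset.mem_univ j)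
    exact (Finsupp.mem_support_iff.1 hxs) h2
  · exact ⟨m, rfl⟩

/-- The torsion in the critical degree for the universal form. -/
theorem core_universal (hn : 1 ≤ n) (hd : 2 ≤ d) (g : MvPolynomial (Vr n d) ℂ)
    (hg : IsWeightedHomogeneous (w n d) g (n * (d - 2)))
    (hT : ∀ j, ∃ N : ℕ, X (Sum.inl j) ^ N * g ∈ UI n d) :
    ∃ c : MvPolynomial (Exponent n d) ℂ, g - rename Sum.inr c * UH n d ∈ UI n d := by
  obtain ⟨m, S, h0, hdeg⟩ := exists_setup (n := n) (d := d) hn hd
  obtain ⟨c, hc, hmem⟩ := S.core (H := UH n d) (fun i => UF_hom (by omega) i) (UH_hom hd) h0 hdeg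
    (fun j => ⟨1, by rw [pow_one]; exact UH_mem hd j⟩) g hg hT
  obtain ⟨P, rfl⟩ := exists_of_weight_zero hc
  exact ⟨P, hmem⟩

/-! ### Specialisation -/

/-- Substitute numbers for the coefficients. -/
noncomputable def sp (a : Exponent n d → ℂ) : MvPolynomial (Vr n d) ℂ →ₐ[ℂ] MvPolynomial (Fin n) ℂ :=
  aeval (Sum.elim X (fun m => C (a m)))

lemma sp_inl (a : Exponent n d → ℂ) (j : Fin n) : sp a (X (Sum.inl j)) = X j := by
  simp [sp]

lemma sp_inr (a : Exponent n d → ℂ) (m : Exponent n d) : sp a (X (Sum.inr m)) = C (a m) := by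
  simp [sp]

lemma sp_C (a : Exponent n d → ℂ) (c : ℂ) : sp a (C c) = C c := by
  simp [sp]

lemma sp_U (a : Exponent n d → ℂ) : sp a (U n d) = form a := by
  unfold U form mon
  rw [map_sum]
  apply Finset.sum_congr rfl
  intro m _
  rw [map_mul, sp_inr, map_prod]
  simp_rw [map_pow, sp_inl]

lemma sp_pderiv (a : Exponent n d → ℂ) (j : Fin n) (p : MvPolynomial (Vr n d) ℂ) :
    sp a (pderiv (Sum.inl j) p) = pderiv j (sp a p) := by
  induction p using MvPolynomial.induction_on with
  | C c => rw [pderiv_C, map_zero, sp_C, pderiv_C]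
  | add p q hp hq => rw [map_add, map_add, hp, hq, map_add, map_add]
  | mul_X p x hp =>
    rw [pderiv_mul, map_add, map_mul, map_mul, map_mul, pderiv_mul, hp]
    congr 2
    rcases x with i | m
    · rw [sp_inl, pderiv_X, pderiv_X]
      by_cases h : i = j
      · subst h; simp
      · rw [Pi.single_eq_of_ne (by simpa using h), Pi.single_eq_of_ne h, map_zero]
    · rw [sp_inr, pderiv_C, pderiv_X, Pi.single_eq_of_ne (by simp), map_zero]

lemma sp_UF (a : Exponent n d → ℂ) (j : Fin n) : sp a (UF (d := d) j) = pderiv j (form a) := by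
  unfold UF
  rw [sp_pderiv, sp_U]

lemma sp_UH (a : Exponent n d → ℂ) : sp a (UH n d) = hessian a := by
  unfold UH hessian
  rw [AlgHom.map_det]
  congr 1
  ext1 i j
  simp only [AlgHom.mapMatrix_apply, Matrix.map_apply, Matrix.of_apply]
  unfold UM
  rw [sp_pderiv, sp_UF]

lemma sp_rename (a : Exponent n d → ℂ) (P : MvPolynomial (Exponent n d) ℂ) :
    sp a (rename Sum.inr P) = C (eval a P) := by
  unfold sp
  rw [aeval_rename]
  have : (Sum.elim X (fun m => C (a m)) : Vr n d → MvPolynomial (Fin n) ℂ) ∘ Sum.inr =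
      fun m => C (a m) := by
    ext1 m; rfl
  rw [this]
  induction P using MvPolynomial.induction_on with
  | C c => simp
  | add p q hp hq => rw [map_add, map_add, hp, hq, C_add]
  | mul_X p x hp => rw [map_mul, map_mul, hp, aeval_X, eval_X, C_mul]

lemma sp_rename_inl (a : Exponent n d → ℂ) (P : MvPolynomial (Fin n) ℂ) :
    sp a (rename Sum.inl P) = P := by
  unfold sp
  rw [aeval_rename]
  have : (Sum.elim X (fun m => C (a m)) : Vr n d → MvPolynomial (Fin n) ℂ) ∘ Sum.inl = X := by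
    ext1 m; rfl
  rw [this, aeval_X_left_apply]

lemma sp_mem (a : Exponent n d → ℂ) {p : MvPolynomial (Vr n d) ℂ} (hp : p ∈ UI n d) :
    sp a p ∈ jacobianIdeal a := by
  have h1 : UI n d ≤ (jacobianIdeal a).comap (sp a) := by
    rw [Ideal.span_le]
    rintro _ ⟨j, rfl⟩
    rw [SetLike.mem_coe, Ideal.mem_comap, sp_UF]
    exact Ideal.subset_span ⟨j, rfl⟩
  exact h1 hp

lemma eval_sp (a : Exponent n d → ℂ) (z : Fin n → ℂ) (p : MvPolynomial (Vr n d) ℂ) :
    eval z (sp a p) = eval (Sum.elim z a) p := by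
  induction p using MvPolynomial.induction_on with
  | C c => rw [sp_C, eval_C, eval_C]
  | add p q hp hq => rw [map_add, map_add, map_add, hp, hq]
  | mul_X p x hp =>
    rw [map_mul, map_mul, map_mul, hp]
    rcases x with i | m
    · rw [sp_inl, eval_X, eval_X]; rfl
    · rw [sp_inr, eval_C, eval_X]; rfl

lemma eval_rename_inr (a : Exponent n d → ℂ) (z : Fin n → ℂ) (P : MvPolynomial (Exponent n d) ℂ) :
    eval (Sum.elim z a) (rename Sum.inr P) = eval a P := by
  rw [← eval_sp, sp_rename, eval_C]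

end Pool.Agent.H42EE
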