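import Pool.Agent.H42EE.Basic

set_option autoImplicit false

namespace Pool.Agent.H42EE

open MvPolynomial MonomialOrder

variable {n d : ℕ}

/-- the exponent vector of `z_j ^ (d-1) z_i` -/
def bexp (hd : 1 ≤ d) (j i : Fin n) : Exponent n d :=
  ⟨fun l => ⟨(if l = j then d - 1 else 0) + (if l = i then 1 else 0), by split_ifs <;> omega⟩, by
    simp only
    rw [Finset.sum_add_distrib, Finset.sum_ite_eq', Finset.sum_ite_eq']
    simp
    omega⟩

lemma bexp_val (hd : 1 ≤ d) (j i l : Fin n) :
    ((bexp hd j i).1 l : ℕ) = (if l = j then d - 1 else 0) + (if l = i then 1 else 0) := rfl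

lemma mon_bexp (hd : 1 ≤ d) (j i : Fin n) : mon (bexp hd j i) = X j ^ (d - 1) * X i := by
  unfold mon
  simp_rw [bexp_val, pow_add]
  rw [Finset.prod_mul_distrib]
  congr 1
  · rw [Finset.prod_eq_single j]
    · simp
    · intro b _ hb; simp [hb]
    · simp
  · rw [Finset.prod_eq_single i]
    · simp
    · intro b _ hb; simp [hb]
    · simp

lemma form_add (a b : Exponent n d → ℂ) : form (a + b) = form a + form b := by
  unfold form
  rw [← Finset.sum_add_distrib]
  apply Finset.sum_congr rfl
  intro m _
  rw [Pi.add_apply, C_add, add_mul]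

lemma form_smul (t : ℂ) (a : Exponent n d → ℂ) : form (t • a) = C t * form a := by
  unfold form
  rw [Finset.mul_sum]
  apply Finset.sum_congr rfl
  intro m _
  rw [Pi.smul_apply, smul_eq_mul, C_mul, mul_assoc]

lemma form_sub (a b : Exponent n d → ℂ) : form (a - b) = form a - form b := by
  have h1 := form_smul (-1) b
  have h2 : a - b = a + (-1 : ℂ) • b := by
    rw [neg_smul, one_smul, sub_eq_add_neg]
  rw [h2, form_add, h1, C_neg, C_1]
  ring

open Classical in
lemma form_single (m : Exponent n d) (t : ℂ) : form (Pi.single m t) = C t * mon m := by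
  unfold form
  rw [Finset.sum_eq_single m]
  · rw [Pi.single_eq_same]
  · intro b _ hb
    rw [Pi.single_eq_of_ne hb, C_0, zero_mul]
  · simp

open Classical in
lemma form_sum_single (c : Fin n → ℂ) (b : Fin n → Exponent n d) :
    form (∑ l, Pi.single (b l) (c l)) = ∑ l, C (c l) * mon (b l) := by
  have key : ∀ s : Finset (Fin n), form (∑ l ∈ s, (Pi.single (b l) (c l) : Exponent n d → ℂ)) =
      ∑ l ∈ s, C (c l) * mon (b l) := by
    intro s
    induction s using Finset.induction_on with
    | empty =>
      rw [Finset.sum_empty, Finset.sum_empty]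
      unfold form
      simp
    | insert x s hx ih =>
      rw [Finset.sum_insert hx, Finset.sum_insert hx, form_add, ih, form_single]
  exact key Finset.univ

/-- `z_j^d` times the coefficients of the correction term, in the ideal of the partial
derivatives -/
noncomputable def Y (j l : Fin n) : MvPolynomial (Vr n d) ℂ :=
  if l = j then U n d - ∑ i ∈ Finset.univ.erase j, X (Sum.inl i) * UF (d := d) i
  else X (Sum.inl j) * UF (d := d) l

lemma Y_mem (hd : 1 ≤ d) (j l : Fin n) : Y (d := d) j l ∈ UI n d := by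
  unfold Y
  split_ifs
  · apply Ideal.sub_mem _ (U_mem hd)
    exact Ideal.sum_mem _ (fun i _ => Ideal.mul_mem_left _ _ (UF_mem i))
  · exact Ideal.mul_mem_left _ _ (UF_mem l)

/-- the coefficients of the correction term at a point -/
noncomputable def cc (j : Fin n) (z : Fin n → ℂ) (a : Exponent n d → ℂ) (l : Fin n) : ℂ :=
  eval (Sum.elim z a) (Y j l) / z j ^ d

open Classical in
/-- the corrected form -/
noncomputable def corr (hd : 1 ≤ d) (j : Fin n) (z : Fin n → ℂ) (a : Exponent n d → ℂ) :
    Exponent n d → ℂ :=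
  a - ∑ l, Pi.single (bexp hd j l) (cc j z a l)

lemma form_corr (hd : 1 ≤ d) (j : Fin n) (z : Fin n → ℂ) (a : Exponent n d → ℂ) :
    form (corr hd j z a) = form a - ∑ l, C (cc j z a l) * (X j ^ (d - 1) * X l) := by
  unfold corr
  rw [form_sub, form_sum_single]
  simp_rw [mon_bexp]

lemma eval_Y_ne (j l : Fin n) (hl : l ≠ j) (z : Fin n → ℂ) (a : Exponent n d → ℂ) :
    eval (Sum.elim z a) (Y (d := d) j l) = z j * eval z (pderiv l (form a)) := by
  unfold Y
  rw [if_neg hl, ← eval_sp, map_mul, sp_UF, sp_inl, map_mul, eval_X]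

lemma eval_Y_self (j : Fin n) (z : Fin n → ℂ) (a : Exponent n d → ℂ) :
    eval (Sum.elim z a) (Y (d := d) j j) = eval z (form a) -
      ∑ i ∈ Finset.univ.erase j, z i * eval z (pderiv i (form a)) := by
  unfold Y
  rw [if_pos rfl, ← eval_sp, map_sub, sp_U, map_sub, map_sum, map_sum]
  congr 1
  apply Finset.sum_congr rfl
  intro i _
  rw [map_mul, sp_UF, sp_inl, map_mul, eval_X]

lemma euler_form (a : Exponent n d → ℂ) (z : Fin n → ℂ) :
    ∑ j, z j * eval z (pderiv j (form a)) = d * eval z (form a) := by
  have h1 := congrArg (fun p => eval z (sp a p)) (euler (U_hom (n := n) (d := d)))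
  simp only [map_sum, map_mul, sp_inl, sp_C, eval_C, eval_X, sp_U] at h1
  rw [← h1]
  apply Finset.sum_congr rfl
  intro j _
  rw [sp_pderiv, sp_U]

/-- the corrected form is singular at `z` -/
lemma corr_sing (hd : 2 ≤ d) (j : Fin n) (z : Fin n → ℂ) (hz : z j ≠ 0) (a : Exponent n d → ℂ)
    (i : Fin n) : eval z (pderiv i (form (corr (by omega) j z a))) = 0 := by
  have hzd : z j ^ d = z j * z j ^ (d - 1) := by
    rw [← pow_succ']
    congr 1
    omega
  have hne : ∀ i, i ≠ j → eval z (pderiv i (form (corr (by omega) j z a))) = 0 := by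
    intro i hi
    rw [form_corr, map_sub, map_sum, map_sub, map_sum, Finset.sum_eq_single i]
    · rw [pderiv_C_mul, pderiv_mul, pderiv_pow, pderiv_X, pderiv_X, Pi.single_eq_of_ne hi.symm,
        Pi.single_eq_same, mul_zero, zero_mul, zero_add, mul_one, map_mul, eval_C, map_pow,
        eval_X, cc, eval_Y_ne j i hi, hzd]
      field_simp
      ring
    · intro l _ hl
      rw [pderiv_C_mul, pderiv_mul, pderiv_pow, pderiv_X, pderiv_X, Pi.single_eq_of_ne hi.symm,
        Pi.single_eq_of_ne hl, mul_zero, zero_mul, zero_add, mul_zero, mul_zero, map_zero]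
    · simp
  by_cases hi : i = j
  · subst hi
    have h1 := euler_form (corr (by omega) i z a) z
    rw [Finset.sum_eq_single i (fun l _ hl => by rw [hne l hl, mul_zero]) (by simp)] at h1
    have h2 : eval z (form (corr (by omega) i z a)) = 0 := by
      rw [form_corr, map_sub, map_sum]
      have h3 : ∀ l, eval z (C (cc i z a l) * (X i ^ (d - 1) * X l)) =
          if l = i then eval (Sum.elim z a) (Y (d := d) i i) else
            z l * eval z (pderiv l (form a)) := by
        intro l
        rw [map_mul, map_mul, map_pow, eval_C, eval_X, eval_X, cc]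
        split_ifs with hl
        · subst hl
          rw [hzd]
          field_simp
        · rw [eval_Y_ne i l hl, hzd]
          field_simp
      simp_rw [h3]
      rw [← Finset.add_sum_erase _ _ (Finset.mem_univ i), if_pos rfl, eval_Y_self]
      have h4 : ∀ l ∈ Finset.univ.erase i, (if l = i then eval z (form a) -
          ∑ i' ∈ Finset.univ.erase i, z i' * eval z (pderiv i' (form a)) else
            z l * eval z (pderiv l (form a))) = z l * eval z (pderiv l (form a)) := by
        intro l hl
        rw [if_neg (Finset.mem_erase.1 hl).1]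
      rw [Finset.sum_congr rfl h4]
      ring
    rw [h2, mul_zero] at h1
    rcases mul_eq_zero.1 h1 with h | h
    · exact absurd h hz
    · exact h
  · exact hne i hi

lemma corr_self (hd : 2 ≤ d) (j : Fin n) (z : Fin n → ℂ) (a : Exponent n d → ℂ)
    (ha : ∀ i, eval z (pderiv i (form a)) = 0) : corr (by omega) j z a = a := by
  have h0 : eval z (form a) = 0 := by
    have h1 := euler_form a z
    rw [Finset.sum_eq_zero (fun i _ => by rw [ha i, mul_zero])] at h1
    rcases mul_eq_zero.1 h1.symm with h | h
    · exfalso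
      norm_cast at h
      omega
    · exact h
  have hc : ∀ l, cc j z a l = 0 := by
    intro l
    unfold cc
    by_cases hl : l = j
    · subst hl
      rw [eval_Y_self, h0, Finset.sum_eq_zero (fun i _ => by rw [ha i, mul_zero])]
      simp
    · rw [eval_Y_ne j l hl, ha, mul_zero, zero_div]
  unfold corr
  simp [hc]

/-- Elimination in the chart `z_j ≠ 0`. -/
lemma chart (hd : 2 ≤ d) (j : Fin n) (P : MvPolynomial (Exponent n d) ℂ) :
    ∃ (M : ℕ) (h : MvPolynomial (Vr n d) ℂ), X (Sum.inl j) ^ M * rename Sum.inr P - h ∈ UI n d ∧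
      ∀ (z : Fin n → ℂ) (a : Exponent n d → ℂ), z j ≠ 0 →
        eval (Sum.elim z a) h = z j ^ M * eval (corr (by omega) j z a) P := by
  classical
  induction P using MvPolynomial.induction_on with
  | C c =>
    refine ⟨0, C c, ?_, ?_⟩
    · rw [rename_C]; simp
    · intro z a _
      simp
  | add P Q hP hQ =>
    obtain ⟨M1, h1, h2, h3⟩ := hP
    obtain ⟨M2, g1, g2, g3⟩ := hQ
    refine ⟨M1 + M2, X (Sum.inl j) ^ M2 * h1 + X (Sum.inl j) ^ M1 * g1, ?_, ?_⟩
    · have : X (Sum.inl j) ^ (M1 + M2) * rename Sum.inr (P + Q) -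
          (X (Sum.inl j) ^ M2 * h1 + X (Sum.inl j) ^ M1 * g1) =
          X (Sum.inl j) ^ M2 * (X (Sum.inl j) ^ M1 * rename Sum.inr P - h1) +
          X (Sum.inl j) ^ M1 * (X (Sum.inl j) ^ M2 * rename Sum.inr Q - g1) := by
        rw [map_add]; ring
      rw [this]
      exact Ideal.add_mem _ (Ideal.mul_mem_left _ _ h2) (Ideal.mul_mem_left _ _ g2)
    · intro z a hz
      rw [map_add, map_mul, map_mul, map_pow, map_pow, h3 z a hz, g3 z a hz, eval_X, Sum.elim_inl,
        map_add]
      ring
  | mul_X P m hP =>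
    obtain ⟨M, h, h2, h3⟩ := hP
    set W : MvPolynomial (Vr n d) ℂ := ∑ l, if m = bexp (by omega) j l then Y j l else 0 with hW
    have hWm : W ∈ UI n d := by
      apply Ideal.sum_mem
      intro l _
      split_ifs
      · exact Y_mem (by omega) j l
      · exact Ideal.zero_mem _
    refine ⟨M + d, h * (X (Sum.inl j) ^ d * X (Sum.inr m) - W), ?_, ?_⟩
    · have : X (Sum.inl j) ^ (M + d) * rename Sum.inr (P * X m) -
          h * (X (Sum.inl j) ^ d * X (Sum.inr m) - W) =
          (X (Sum.inl j) ^ d * X (Sum.inr m)) * (X (Sum.inl j) ^ M * rename Sum.inr P - h) +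
            h * W := by
        rw [map_mul, rename_X]; ring
      rw [this]
      exact Ideal.add_mem _ (Ideal.mul_mem_left _ _ h2) (Ideal.mul_mem_left _ _ hWm)
    · intro z a hz
      rw [map_mul, h3 z a hz, map_mul, eval_X]
      have h4 : eval (Sum.elim z a) (X (Sum.inl j) ^ d * X (Sum.inr m) - W) =
          z j ^ d * corr (by omega) j z a m := by
        rw [map_sub, map_mul, map_pow, eval_X, eval_X, Sum.elim_inl, Sum.elim_inr, hW, map_sum]
        unfold corr
        rw [Pi.sub_apply, Finset.sum_apply, mul_sub, Finset.mul_sum]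
        congr 1
        apply Finset.sum_congr rfl
        intro l _
        split_ifs with hm
        · rw [← hm, Pi.single_eq_same, cc]
          field_simp
        · rw [map_zero, Pi.single_eq_of_ne hm, mul_zero]
      rw [h4]
      ring

/-- The vanishing ideal of the set of the degenerate forms. -/
def ID (n d : ℕ) : Ideal (MvPolynomial (Exponent n d) ℂ) where
  carrier := {P | ∀ a, ¬ Nondegenerate a → eval a P = 0}
  zero_mem' := fun a _ => by simp
  add_mem' := fun {P Q} hP hQ a ha => by rw [map_add, hP a ha, hQ a ha, add_zero]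
  smul_mem' := fun c P hP a ha => by rw [smul_eq_mul, map_mul, hP a ha, mul_zero]

lemma mem_ID {P : MvPolynomial (Exponent n d) ℂ} :
    P ∈ ID n d ↔ ∀ a, ¬ Nondegenerate a → eval a P = 0 := Iff.rfl

lemma not_nondeg {a : Exponent n d → ℂ} : ¬ Nondegenerate a ↔
    ∃ z : Fin n → ℂ, (∀ i, eval z (pderiv i (form a)) = 0) ∧ ∃ j, z j ≠ 0 := by
  unfold Nondegenerate
  push Not
  constructor
  · rintro ⟨z, h1, h2⟩
    refine ⟨z, h1, ?_⟩
    by_contra hcon
    push Not at hcon
    exact h2 (funext hcon)
  · rintro ⟨z, h1, j, hj⟩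
    refine ⟨z, h1, ?_⟩
    rintro rfl
    exact hj rfl

lemma eq_zero_of_chart {j : Fin n} {h : MvPolynomial (Vr n d) ℂ}
    (hh : ∀ (z : Fin n → ℂ) (a : Exponent n d → ℂ), z j ≠ 0 → eval (Sum.elim z a) h = 0) :
    h = 0 := by
  have h1 : h * X (Sum.inl j) = 0 := by
    apply MvPolynomial.funext
    intro x
    rw [map_mul, map_zero, eval_X]
    by_cases hx : x (Sum.inl j) = 0
    · rw [hx, mul_zero]
    · have h2 := hh (x ∘ Sum.inl) (x ∘ Sum.inr) hx
      rw [Sum.elim_comp_inl_inr] at h2
      rw [h2, zero_mul]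
  rcases mul_eq_zero.1 h1 with h2 | h2
  · exact h2
  · exact absurd h2 (X_ne_zero _)

/-- Polynomials vanishing at the degenerate forms are inertia forms. -/
theorem inertia (hd : 2 ≤ d) {P : MvPolynomial (Exponent n d) ℂ} (hP : P ∈ ID n d) (j : Fin n) :
    ∃ M : ℕ, X (Sum.inl j) ^ M * rename Sum.inr P ∈ UI n d := by
  obtain ⟨M, h, h1, h2⟩ := chart hd j P
  refine ⟨M, ?_⟩
  have h3 : h = 0 := by
    apply eq_zero_of_chart (j := j)
    intro z a hz
    rw [h2 z a hz, hP _ (not_nondeg.2 ⟨z, corr_sing hd j z hz a, j, hz⟩), mul_zero]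
  rwa [h3, sub_zero] at h1

lemma ID_prime (hn : 1 ≤ n) (hd : 2 ≤ d) : (ID n d).IsPrime := by
  rw [Ideal.isPrime_iff]
  constructor
  · rw [Ideal.ne_top_iff_one, mem_ID]
    push Not
    refine ⟨0, not_nondeg.2 ⟨fun _ => 1, ?_, ⟨0, hn⟩, one_ne_zero⟩, by simp⟩
    intro i
    have : form (0 : Exponent n d → ℂ) = 0 := by unfold form; simp
    rw [this, map_zero, map_zero]
  · intro P Q hPQ
    by_contra hcon
    push Not at hcon
    obtain ⟨hP, hQ⟩ := hcon
    rw [mem_ID] at hP hQ
    push Not at hP hQ
    obtain ⟨a1, ha1, hPa⟩ := hP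
    obtain ⟨a2, ha2, hQa⟩ := hQ
    obtain ⟨z1, hs1, j1, hj1⟩ := not_nondeg.1 ha1
    obtain ⟨z2, hs2, j2, hj2⟩ := not_nondeg.1 ha2
    obtain ⟨M1, h1, -, e1⟩ := chart hd j1 P
    obtain ⟨M2, h2, -, e2⟩ := chart hd j2 Q
    have hh1 : h1 ≠ 0 := by
      rintro rfl
      have := e1 z1 a1 hj1
      rw [corr_self hd j1 z1 a1 hs1, map_zero] at this
      exact (mul_ne_zero (pow_ne_zero _ hj1) hPa) this.symm
    have hh2 : h2 ≠ 0 := by
      rintro rfl
      have := e2 z2 a2 hj2
      rw [corr_self hd j2 z2 a2 hs2, map_zero] at this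
      exact (mul_ne_zero (pow_ne_zero _ hj2) hQa) this.symm
    -- a point where everything is nonzero
    have hprod : h1 * h2 * (X (Sum.inl j1) * X (Sum.inl j2)) ≠ 0 :=
      mul_ne_zero (mul_ne_zero hh1 hh2) (mul_ne_zero (X_ne_zero _) (X_ne_zero _))
    obtain ⟨x, hx⟩ : ∃ x : Vr n d → ℂ, eval x (h1 * h2 * (X (Sum.inl j1) * X (Sum.inl j2))) ≠ 0 := by
      by_contra hcon
      push Not at hcon
      apply hprod
      apply MvPolynomial.funext
      intro x
      rw [hcon x, map_zero]
    rw [map_mul, map_mul, map_mul, eval_X, eval_X] at hx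
    set z := x ∘ Sum.inl with hz
    set a := x ∘ Sum.inr with ha
    have hxe : x = Sum.elim z a := by rw [hz, ha, Sum.elim_comp_inl_inr]
    have hz1 : z j1 ≠ 0 := by
      intro h
      apply hx
      have : x (Sum.inl j1) = 0 := h
      rw [this]; ring
    have hz2 : z j2 ≠ 0 := by
      intro h
      apply hx
      have : x (Sum.inl j2) = 0 := h
      rw [this]; ring
    have hP1 : eval (corr (by omega) j1 z a) P ≠ 0 := by
      intro h
      apply hx
      have := e1 z a hz1
      rw [← hxe, h, mul_zero] at this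
      rw [this]; ring
    have hQ1 : eval (corr (by omega) j2 z a) Q ≠ 0 := by
      intro h
      apply hx
      have := e2 z a hz2
      rw [← hxe, h, mul_zero] at this
      rw [this]; ring
    set f1 := corr (by omega) j1 z a with hf1
    set f2 := corr (by omega) j2 z a with hf2
    have hs1' := corr_sing hd j1 z hz1 a
    have hs2' := corr_sing hd j2 z hz2 a
    rw [← hf1] at hs1'
    rw [← hf2] at hs2'
    -- polynomials along the line
    let L : Exponent n d → Polynomial ℂ := fun m =>
      Polynomial.C (f1 m) + Polynomial.X * Polynomial.C (f2 m - f1 m)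
    have hL : ∀ (R : MvPolynomial (Exponent n d) ℂ) (t : ℂ),
        Polynomial.eval t (aeval L R) = eval (f1 + t • (f2 - f1)) R := by
      intro R t
      induction R using MvPolynomial.induction_on with
      | C c =>
        rw [aeval_C, eval_C]
        change Polynomial.eval t (Polynomial.C c) = c
        rw [Polynomial.eval_C]
      | add p q hp hq => rw [map_add, Polynomial.eval_add, hp, hq, map_add]
      | mul_X p m hp =>
        rw [map_mul, Polynomial.eval_mul, hp, map_mul, aeval_X, eval_X]
        simp [L]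
    have hpt : aeval L P ≠ 0 := by
      intro h
      have := hL P 0
      rw [h, Polynomial.eval_zero, zero_smul, add_zero] at this
      exact hP1 this.symm
    have hqt : aeval L Q ≠ 0 := by
      intro h
      have := hL Q 1
      rw [h, Polynomial.eval_zero, one_smul, add_sub_cancel] at this
      exact hQ1 this.symm
    have hzero : aeval L P * aeval L Q = 0 := by
      apply Polynomial.funext
      intro t
      rw [← map_mul, hL, Polynomial.eval_zero]
      apply hPQ
      refine not_nondeg.2 ⟨z, ?_, j1, hz1⟩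
      intro i
      rw [form_add, form_smul, form_sub, map_add, pderiv_C_mul, map_sub, map_add, map_mul,
        map_sub, hs1' i, hs2' i]
      ring
    rcases mul_eq_zero.1 hzero with h | h
    · exact hpt h
    · exact hqt h

end Pool.Agent.H42EE
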