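import Mathlib

set_option autoImplicit false

/-!
# The associated form of a form, and the discriminant

Definitions for MP_ee1e03_al.
-/

namespace Pool.Agent.H42EE

open MvPolynomial

/-- The exponent vectors `m = (m_1, ..., m_n)` with `m_1 + ... + m_n = k`. -/
abbrev Exponent (n k : ℕ) : Type := {m : Fin n → Fin (k + 1) // ∑ j, (m j : ℕ) = k}

/-- The monomial `z^m`. -/
noncomputable def mon {n k : ℕ} (m : Exponent n k) : MvPolynomial (Fin n) ℂ :=
  ∏ j, X j ^ (m.1 j : ℕ)

/-- The form of degree `d` in `z_1, ..., z_n` with the coefficients `a`, that is `∑ a_m z^m`.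
So the vector space `V` of the forms of degree `d` is the space of the functions
`a : Exponent n d → ℂ`, and the polynomial functions on `V` are given by the elements of
`MvPolynomial (Exponent n d) ℂ`. -/
noncomputable def form {n d : ℕ} (a : Exponent n d → ℂ) : MvPolynomial (Fin n) ℂ :=
  ∑ m, C (a m) * mon m

/-- The form is nondegenerate: its partial derivatives have no common zero except the origin. -/
def Nondegenerate {n d : ℕ} (a : Exponent n d → ℂ) : Prop :=
  ∀ z : Fin n → ℂ, (∀ j, eval z (pderiv j (form a)) = 0) → z = 0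

/-- `Δ` is the discriminant: it is irreducible, and `Δ(f) = 0` if and only if `f` is degenerate.
(So `Δ` is unique up to a constant factor.) -/
def IsDiscriminant {n d : ℕ} (Δ : MvPolynomial (Exponent n d) ℂ) : Prop :=
  Irreducible Δ ∧ ∀ a, eval a Δ ≠ 0 ↔ Nondegenerate a

/-- The ideal of the Milnor algebra `M_f`, generated by the partial derivatives of `f`. -/
noncomputable def jacobianIdeal {n d : ℕ} (a : Exponent n d → ℂ) :
    Ideal (MvPolynomial (Fin n) ℂ) :=
  Ideal.span (Set.range fun j => pderiv j (form a))

/-- The Hessian determinant `H_f`. -/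
noncomputable def hessian {n d : ℕ} (a : Exponent n d → ℂ) : MvPolynomial (Fin n) ℂ :=
  (Matrix.of fun i j => pderiv i (pderiv j (form a))).det

open Classical in
/-- The number `μ_i(f)` with `z^i = μ_i(f) H_f` in the Milnor algebra of `f`. -/
noncomputable def mu {n d : ℕ} (i : Exponent n (n * (d - 2))) (a : Exponent n d → ℂ) : ℂ :=
  if h : ∃ c : ℂ, mon i - C c * hessian a ∈ jacobianIdeal a then h.choose else 0

/-- `Δ^p μ_i` is a polynomial function on `V`. -/
def IsPolynomialFunction {n d : ℕ} (Δ : MvPolynomial (Exponent n d) ℂ)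
    (i : Exponent n (n * (d - 2))) (p : ℤ) : Prop :=
  ∃ P : MvPolynomial (Exponent n d) ℂ, ∀ a, Nondegenerate a → eval a Δ ^ p * mu i a = eval a P

end Pool.Agent.H42EE
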