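import Mathlib

set_option autoImplicit false

namespace Pool.Agent.H42EE

lemma pseudo_div {B : Type} [CommRing B] [IsDomain B] (π : Polynomial B) (hπ : 0 < π.natDegree) :
    ∀ (N : ℕ) (Q : Polynomial B), Q.natDegree ≤ N →
    ∃ (k : ℕ) (q r : Polynomial B),
      Polynomial.C π.leadingCoeff ^ k * Q = π * q + r ∧ r.natDegree < π.natDegree := by
  intro N
  have hπ0 : π ≠ 0 := by rintro rfl; simp at hπ
  have hlc : π.leadingCoeff ≠ 0 := by simpa using hπ0
  induction N with
  | zero =>
    intro Q hQ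
    exact ⟨0, 0, Q, by simp, by omega⟩
  | succ N ih =>
    intro Q hQ
    by_cases hlt : Q.natDegree < π.natDegree
    · exact ⟨0, 0, Q, by simp, hlt⟩
    push Not at hlt
    have hQ0 : Q ≠ 0 := by rintro rfl; simp at hlt; omega
    have hlQ : Q.leadingCoeff ≠ 0 := by simpa using hQ0
    set P2 := Polynomial.C Q.leadingCoeff * Polynomial.X ^ (Q.natDegree - π.natDegree) * π with hP2
    have hX : (Polynomial.X : Polynomial B) ^ (Q.natDegree - π.natDegree) ≠ 0 :=
      pow_ne_zero _ Polynomial.X_ne_zero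
    have h1 : (Polynomial.C π.leadingCoeff * Q).degree = P2.degree := by
      rw [hP2, Polynomial.degree_mul, Polynomial.degree_mul, Polynomial.degree_mul,
        Polynomial.degree_C hlc, Polynomial.degree_C hlQ, Polynomial.degree_X_pow,
        Polynomial.degree_eq_natDegree hQ0, Polynomial.degree_eq_natDegree hπ0, zero_add, zero_add]
      norm_cast
      omega
    have h2 : (Polynomial.C π.leadingCoeff * Q).leadingCoeff = P2.leadingCoeff := by
      rw [hP2, Polynomial.leadingCoeff_mul, Polynomial.leadingCoeff_mul,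
        Polynomial.leadingCoeff_mul, Polynomial.leadingCoeff_C, Polynomial.leadingCoeff_C,
        Polynomial.leadingCoeff_X_pow, mul_one, mul_comm]
    have h3 : Polynomial.C π.leadingCoeff * Q ≠ 0 :=
      mul_ne_zero (by simpa using hπ0) hQ0
    have h4 := Polynomial.degree_sub_lt_left h1 h3 h2
    have h5 : (Polynomial.C π.leadingCoeff * Q - P2).natDegree ≤ N := by
      by_cases h0 : Polynomial.C π.leadingCoeff * Q - P2 = 0
      · rw [h0]; simp
      have h6 := Polynomial.natDegree_lt_natDegree h0 h4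
      rw [Polynomial.natDegree_C_mul hlc] at h6
      omega
    obtain ⟨k, q, r, h7, h8⟩ := ih _ h5
    refine ⟨k + 1, q + Polynomial.C π.leadingCoeff ^ k * (Polynomial.C Q.leadingCoeff *
      Polynomial.X ^ (Q.natDegree - π.natDegree)), r, ?_, h8⟩
    have h9 : Polynomial.C π.leadingCoeff ^ (k + 1) * Q =
        Polynomial.C π.leadingCoeff ^ k * (Polynomial.C π.leadingCoeff * Q - P2) +
          Polynomial.C π.leadingCoeff ^ k * P2 := by
      ring
    rw [h9, h7, hP2]
    ring

theorem exists_generator_aux {B : Type} [CommRing B] [IsDomain B] [UniqueFactorizationMonoid B]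
    (J : Ideal (Polynomial B)) (hJ : J.IsPrime) (hne : J ≠ ⊥)
    (hfree : ∀ b : B, Polynomial.C b ∈ J → b = 0) :
    ∃ π ∈ J, Prime π ∧ ∀ Q ∈ J, π ∣ Q := by
  classical
  have hex : ∃ N : ℕ, ∃ p ∈ J, p ≠ 0 ∧ p.natDegree = N := by
    obtain ⟨p, hp, hp0⟩ := Submodule.exists_mem_ne_zero_of_ne_bot hne
    exact ⟨_, p, hp, hp0, rfl⟩
  obtain ⟨p, hp, hp0, hpN⟩ := Nat.find_spec hex
  have hmin : ∀ q ∈ J, q ≠ 0 → p.natDegree ≤ q.natDegree := by
    intro q hq hq0
    rw [hpN]
    exact Nat.find_min' hex ⟨q, hq, hq0, rfl⟩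
  obtain ⟨s, hs, u, hu⟩ := UniqueFactorizationMonoid.exists_prime_factors p hp0
  have h1 : s.prod ∈ J := by
    rw [← hu] at hp
    rcases hJ.mem_or_mem hp with h | h
    · exact h
    · exact absurd (J.eq_top_of_isUnit_mem h u.isUnit) hJ.ne_top
  obtain ⟨π, hπs, hπ⟩ := (hJ.multiset_prod_mem_iff_exists_mem s).1 h1
  have hπp : Prime π := hs π hπs
  have hdvd : π ∣ p := (Multiset.dvd_prod hπs).trans ⟨u, hu.symm⟩
  have hdeg : π.natDegree = p.natDegree :=
    le_antisymm (Polynomial.natDegree_le_of_dvd hdvd hp0) (hmin π hπ hπp.ne_zero)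
  have hpos : 0 < π.natDegree := by
    rw [Nat.pos_iff_ne_zero]
    intro h0
    obtain ⟨b, hb⟩ := Polynomial.natDegree_eq_zero.1 h0
    rw [← hb] at hπ
    have := hfree b hπ
    rw [this, Polynomial.C_0] at hb
    exact hπp.ne_zero hb.symm
  refine ⟨π, hπ, hπp, ?_⟩
  intro Q hQ
  obtain ⟨k, q, r, h2, h3⟩ := pseudo_div π hpos _ Q le_rfl
  have hr : r ∈ J := by
    have : r = Polynomial.C π.leadingCoeff ^ k * Q - π * q := by rw [h2]; ring
    rw [this]
    exact J.sub_mem (J.mul_mem_left _ hQ) (J.mul_mem_right _ hπ)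
  have hr0 : r = 0 := by
    by_contra h
    have := hmin r hr h
    omega
  rw [hr0, add_zero] at h2
  have h4 : π ∣ Polynomial.C π.leadingCoeff ^ k * Q := ⟨q, h2⟩
  rcases hπp.dvd_or_dvd h4 with h | h
  · exfalso
    have h5 := hπp.dvd_of_dvd_pow h
    have hlc : Polynomial.C π.leadingCoeff ≠ 0 := by simpa using hπp.ne_zero
    have h6 := Polynomial.natDegree_le_of_dvd h5 hlc
    rw [Polynomial.natDegree_C] at h6
    omega
  · exact h

theorem exists_generator {A B : Type} [CommRing A] [CommRing B] [IsDomain B]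
    [UniqueFactorizationMonoid B] (φ : A ≃+* Polynomial B) (I : Ideal A) (hI : I.IsPrime)
    (hne : I ≠ ⊥) (hfree : ∀ b : B, φ.symm (Polynomial.C b) ∈ I → b = 0) :
    ∃ π ∈ I, Irreducible π ∧ ∀ Q ∈ I, π ∣ Q := by
  have : IsDomain A := φ.toMulEquiv.isDomain _
  have hJ : (I.comap φ.symm.toRingHom).IsPrime := Ideal.comap_isPrime _ _
  obtain ⟨π, h1, h2, h3⟩ := exists_generator_aux (I.comap φ.symm.toRingHom) hJ (by
      intro h
      apply hne
      rw [eq_bot_iff]
      intro x hx
      have : φ x ∈ I.comap φ.symm.toRingHom := by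
        rw [Ideal.mem_comap]
        change φ.symm (φ x) ∈ I
        rw [φ.symm_apply_apply]
        exact hx
      rw [h, Ideal.mem_bot] at this
      rw [Ideal.mem_bot]
      exact (map_eq_zero_iff φ φ.injective).1 this)
    (fun b hb => hfree b hb)
  refine ⟨φ.symm π, h1, ?_, ?_⟩
  · exact (MulEquiv.irreducible_iff φ.symm).2 h2.irreducible
  · intro Q hQ
    have h4 : φ Q ∈ I.comap φ.symm.toRingHom := by
      rw [Ideal.mem_comap]
      change φ.symm (φ Q) ∈ I
      rw [φ.symm_apply_apply]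
      exact hQ
    obtain ⟨c, hc⟩ := h3 _ h4
    refine ⟨φ.symm c, ?_⟩
    rw [← map_mul, ← hc, φ.symm_apply_apply]

lemma option_symm_C {S : Type} (b : MvPolynomial S ℂ) :
    (MvPolynomial.optionEquivLeft ℂ S).symm (Polynomial.C b) = MvPolynomial.rename some b :=
  Polynomial.aevalTower_C _ _ b

/-- A prime ideal of a polynomial ring, all of whose nonzero elements contain the variable `x`. -/
theorem exists_generator_mv {τ : Type} [DecidableEq τ] (x : τ) (I : Ideal (MvPolynomial τ ℂ))
    (hI : I.IsPrime) (hne : I ≠ ⊥) (hx : ∀ P ∈ I, P ≠ 0 → x ∈ P.vars) :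
    ∃ π ∈ I, Irreducible π ∧ ∀ Q ∈ I, π ∣ Q := by
  let ψ : Polynomial (MvPolynomial {y : τ // y ≠ x} ℂ) ≃+* MvPolynomial τ ℂ :=
    ((MvPolynomial.optionEquivLeft ℂ _).symm.trans
      (MvPolynomial.renameEquiv ℂ (Equiv.optionSubtypeNe x))).toRingEquiv
  have hψ : ∀ b, ψ (Polynomial.C b) = MvPolynomial.rename Subtype.val b := by
    intro b
    change MvPolynomial.rename (Equiv.optionSubtypeNe x)
      ((MvPolynomial.optionEquivLeft ℂ _).symm (Polynomial.C b)) = _
    rw [option_symm_C, MvPolynomial.rename_rename]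
    rfl
  refine exists_generator ψ.symm I hI hne ?_
  intro b hb
  rw [RingEquiv.symm_symm, hψ] at hb
  by_contra hb0
  have h2 : (MvPolynomial.rename Subtype.val b : MvPolynomial τ ℂ) ≠ 0 := by
    intro h
    apply hb0
    apply MvPolynomial.rename_injective _ Subtype.val_injective
    rw [h, map_zero]
  have h3 := hx _ hb h2
  have h4 := MvPolynomial.vars_rename Subtype.val b h3
  rw [Finset.mem_image] at h4
  obtain ⟨y, -, hy⟩ := h4
  exact y.2 hy

end Pool.Agent.H42EE
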