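import Pool.Agent.H42EE.Mac
import Pool.Agent.H42EE.Principal

set_option autoImplicit false

namespace Pool.Agent.H42EE

open MvPolynomial MonomialOrder

variable {n d : ℕ}

lemma mon_spe (j : Fin n) : mon (spe d j) = X j ^ d := by
  unfold mon
  rw [Finset.prod_eq_single j]
  · rw [spe_val, if_pos rfl]
  · intro i _ hi
    rw [spe_val, if_neg hi, pow_zero]
  · simp

open Classical in
/-- the Fermat form is nondegenerate -/
lemma exists_nondegenerate (hd : 2 ≤ d) : ∃ a : Exponent n d → ℂ, Nondegenerate a := by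
  refine ⟨∑ j : Fin n, Pi.single (spe d j) 1, ?_⟩
  intro z hz
  funext i
  have h1 := hz i
  rw [form_sum_single, map_sum, map_sum, Finset.sum_eq_single i] at h1
  · rw [C_1, one_mul, mon_spe, pderiv_pow, pderiv_X, Pi.single_eq_same, mul_one, map_mul,
      map_pow, eval_X, map_natCast] at h1
    rcases mul_eq_zero.1 h1 with h | h
    · norm_cast at h; omega
    · exact eq_zero_of_pow_eq_zero h
  · intro l _ hl
    rw [C_1, one_mul, mon_spe, pderiv_pow, pderiv_X, Pi.single_eq_of_ne hl, mul_zero, map_zero]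
  · simp

lemma ID_ne_bot (hn : 1 ≤ n) (hd : 2 ≤ d) : ID n d ≠ ⊥ := by
  obtain ⟨a, ha⟩ := exists_nondegenerate (n := n) hd
  obtain ⟨P, hP, h1⟩ := exists_ID hn a ha
  intro h
  rw [h, Ideal.mem_bot] at hP
  rw [hP, map_zero] at h1
  exact zero_ne_one h1

lemma support_inl {P : MvPolynomial (Exponent n d) ℂ} {s : Vr n d →₀ ℕ}
    (hs : s ∈ (rename Sum.inr P : MvPolynomial (Vr n d) ℂ).support) (i : Fin n) :
    s (Sum.inl i) = 0 := by
  classical
  by_contra h
  have h1 : Sum.inl i ∈ (rename Sum.inr P : MvPolynomial (Vr n d) ℂ).vars := by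
    rw [mem_vars_iff_mem_support]
    exact ⟨s, hs, Finsupp.mem_support_iff.2 h⟩
  have h2 := vars_rename Sum.inr P h1
  rw [Finset.mem_image] at h2
  obtain ⟨x, -, hx⟩ := h2
  exact Sum.inr_ne_inl hx

lemma rename_inr_ne_zero {P : MvPolynomial (Exponent n d) ℂ} (hP : P ≠ 0) :
    (rename Sum.inr P : MvPolynomial (Vr n d) ℂ) ≠ 0 := by
  intro h
  apply hP
  apply rename_injective _ (Sum.inr_injective (α := Fin n))
  rw [h, map_zero]

lemma vars_ID (hn : 1 ≤ n) (hd : 2 ≤ d) (j : Fin n) {P : MvPolynomial (Exponent n d) ℂ}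
    (hP : P ∈ ID n d) (hP0 : P ≠ 0) : spe d j ∈ P.vars := by
  classical
  obtain ⟨M, hM⟩ := inertia hd hP j
  obtain ⟨m, S, -, -⟩ := exists_setup (n := n) (d := d) hn hd
  have hR0 := rename_inr_ne_zero hP0
  have hX : (X (Sum.inl j) : MvPolynomial (Vr n d) ℂ) ^ M ≠ 0 := pow_ne_zero _ (X_ne_zero _)
  obtain ⟨i, hi⟩ := S.mem_span _ hM (mul_ne_zero hX hR0)
  rw [m.degree_mul hX hR0, m.degree_pow, m.degree_X] at hi
  have hsup := (m.degree_mem_support_iff _).2 hR0
  have h1 := hi (Sum.inl i)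
  rw [S.degF_z, if_pos rfl, Finsupp.add_apply, Finsupp.smul_apply, Finsupp.single_apply,
    support_inl hsup, add_zero] at h1
  have hij : i = j := by
    by_contra hne
    rw [if_neg (fun h => hne (Sum.inl_injective h).symm), smul_zero] at h1
    omega
  subst hij
  have h2 := hi (Sum.inr (spe d i))
  have h3 := S.degF_a i i
  rw [if_pos rfl] at h3
  rw [h3, Finsupp.add_apply, Finsupp.smul_apply, Finsupp.single_apply, if_neg (by simp),
    smul_zero, zero_add] at h2
  have h4 : Sum.inr (spe d i) ∈ (rename Sum.inr P : MvPolynomial (Vr n d) ℂ).vars := by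
    rw [mem_vars_iff_mem_support]
    exact ⟨_, hsup, Finsupp.mem_support_iff.2 (by omega)⟩
  have h5 := vars_rename Sum.inr P h4
  rw [Finset.mem_image] at h5
  obtain ⟨x, hx, hx2⟩ := h5
  rw [← Sum.inr_injective hx2]
  exact hx

/-- The discriminant exists, and generates the vanishing ideal. -/
theorem exists_discriminant (hn : 1 ≤ n) (hd : 2 ≤ d) :
    ∃ Δ : MvPolynomial (Exponent n d) ℂ, IsDiscriminant Δ ∧ ∀ Q ∈ ID n d, Δ ∣ Q := by
  classical
  obtain ⟨Δ, h1, h2, h3⟩ := exists_generator_mv (spe d ⟨0, hn⟩) (ID n d) (ID_prime hn hd)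
    (ID_ne_bot hn hd) (fun P hP hP0 => vars_ID hn hd _ hP hP0)
  refine ⟨Δ, ⟨h2, ?_⟩, h3⟩
  intro a
  constructor
  · intro h
    by_contra hcon
    exact h (h1 a hcon)
  · intro ha h
    obtain ⟨P, hP, hPa⟩ := exists_ID hn a ha
    obtain ⟨c, hc⟩ := h3 P hP
    rw [hc, map_mul, h, zero_mul] at hPa
    exact zero_ne_one hPa

lemma IsDiscriminant.mem {Δ : MvPolynomial (Exponent n d) ℂ} (h : IsDiscriminant Δ) :
    Δ ∈ ID n d := by
  intro a ha
  by_contra hcon
  exact ha ((h.2 a).1 hcon)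

theorem discriminant_unique (hn : 1 ≤ n) (hd : 2 ≤ d) {Δ Δ' : MvPolynomial (Exponent n d) ℂ}
    (h : IsDiscriminant Δ) (h' : IsDiscriminant Δ') : Associated Δ Δ' := by
  obtain ⟨Δ₀, h1, h2⟩ := exists_discriminant (n := n) (d := d) hn hd
  have h3 := h1.1.associated_of_dvd h.1 (h2 Δ h.mem)
  have h4 := h1.1.associated_of_dvd h'.1 (h2 Δ' h'.mem)
  exact h3.symm.trans h4

lemma inr_hom (P : MvPolynomial (Exponent n d) ℂ) :
    IsWeightedHomogeneous (w n d) (rename Sum.inr P : MvPolynomial (Vr n d) ℂ) 0 := by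
  intro s hs
  rw [weight_sum]
  exact Finset.sum_eq_zero (fun i _ => support_inl (mem_support_iff.2 hs) i)

lemma inl_hom {k : ℕ} (γ : Exponent n k) :
    IsWeightedHomogeneous (w n d) (rename Sum.inl (mon γ) : MvPolynomial (Vr n d) ℂ) k := by
  unfold mon
  rw [map_prod]
  have h1 : IsWeightedHomogeneous (w n d)
      (∏ j, (rename Sum.inl (X j ^ (γ.1 j : ℕ)) : MvPolynomial (Vr n d) ℂ))
      (∑ j, (γ.1 j : ℕ)) := by
    apply IsWeightedHomogeneous.prod
    intro j _
    rw [map_pow, rename_X]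
    have := (isWeightedHomogeneous_X ℂ (w n d) (Sum.inl j)).pow (γ.1 j : ℕ)
    rwa [w_inl, smul_eq_mul, mul_one] at this
  rwa [γ.2] at h1

/-- The multiples of the monomials of critical degree by the polynomials vanishing at the
degenerate forms. -/
theorem key (hn : 1 ≤ n) (hd : 2 ≤ d) {P : MvPolynomial (Exponent n d) ℂ} (hP : P ∈ ID n d)
    (i : Exponent n (n * (d - 2))) : ∃ c : MvPolynomial (Exponent n d) ℂ,
      ∀ a, C (eval a P) * mon i - C (eval a c) * hessian a ∈ jacobianIdeal a := by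
  obtain ⟨c, hc⟩ := core_universal hn hd (rename Sum.inr P * rename Sum.inl (mon i)) (by
    have := (inr_hom P).mul (inl_hom (d := d) i)
    rwa [zero_add] at this) (fun j => by
      obtain ⟨M, hM⟩ := inertia hd hP j
      refine ⟨M, ?_⟩
      rw [← mul_assoc]
      exact Ideal.mul_mem_right _ _ hM)
  refine ⟨c, fun a => ?_⟩
  have h1 := sp_mem a hc
  rwa [map_sub, map_mul, map_mul, sp_rename, sp_rename_inl, sp_rename, sp_UH] at h1

lemma exists_mu (hn : 1 ≤ n) (hd : 2 ≤ d) {a : Exponent n d → ℂ} (ha : Nondegenerate a)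
    (i : Exponent n (n * (d - 2))) : ∃ c : ℂ, mon i - C c * hessian a ∈ jacobianIdeal a := by
  obtain ⟨P, hP, hPa⟩ := exists_ID hn a ha
  obtain ⟨c, hc⟩ := key hn hd hP i
  refine ⟨eval a c, ?_⟩
  have := hc a
  rwa [hPa, C_1, one_mul] at this

/-- Not all monomials of the critical degree are in the Jacobian ideal. -/
lemma not_all (hn : 2 ≤ n) (hd : 3 ≤ d) {a : Exponent n d → ℂ}
    (hall : ∀ γ : Exponent n (n * (d - 2)), mon γ ∈ jacobianIdeal a) : False := by
  have hk : d - 1 ≤ n * (d - 2) := by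
    calc d - 1 ≤ 2 * (d - 2) := by omega
      _ ≤ n * (d - 2) := Nat.mul_le_mul_right _ hn
  obtain ⟨P, hP1, hP2⟩ := mac hk a hall
  have hP0 : P ≠ 0 := by
    rintro rfl
    rw [map_zero] at hP1
    exact zero_ne_one hP1
  obtain ⟨m, S, -, -⟩ := exists_setup (n := n) (d := d) (by omega) (by omega)
  have hR0 := rename_inr_ne_zero hP0
  let γ : Exponent n (n * (d - 2)) := ⟨fun _ => ⟨d - 2, by
    have : 1 * (d - 2) ≤ n * (d - 2) := Nat.mul_le_mul_right _ (by omega)
    omega⟩, by simp⟩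
  have hγ : (rename Sum.inl (mon γ) : MvPolynomial (Vr n d) ℂ) =
      monomial ((toF γ).mapDomain Sum.inl) 1 := by
    rw [mon_eq, rename_monomial]
  have hM0 : (rename Sum.inl (mon γ) : MvPolynomial (Vr n d) ℂ) ≠ 0 := by
    rw [hγ, Ne, monomial_eq_zero]
    exact one_ne_zero
  obtain ⟨i, hi⟩ := S.mem_span _ (hP2 γ) (mul_ne_zero hR0 hM0)
  classical
  rw [m.degree_mul hR0 hM0, hγ, m.degree_monomial, if_neg one_ne_zero] at hi
  have hsup := (m.degree_mem_support_iff _).2 hR0
  have h1 := hi (Sum.inl i)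
  rw [S.degF_z, if_pos rfl, Finsupp.add_apply, support_inl hsup, zero_add,
    Finsupp.mapDomain_apply Sum.inl_injective, toF_apply] at h1
  have h2 : ((γ.1 i : Fin _) : ℕ) = d - 2 := rfl
  omega

lemma hessian_notMem (hn : 2 ≤ n) (hd : 3 ≤ d) {a : Exponent n d → ℂ} (ha : Nondegenerate a) :
    hessian a ∉ jacobianIdeal a := by
  intro h
  apply not_all hn hd (a := a)
  intro γ
  obtain ⟨c, hc⟩ := exists_mu (by omega) (by omega) ha γ
  have := Ideal.add_mem _ hc (Ideal.mul_mem_left _ (C c) h)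
  rwa [sub_add_cancel] at this

lemma mu_unique (hn : 2 ≤ n) (hd : 3 ≤ d) {a : Exponent n d → ℂ} (ha : Nondegenerate a)
    (i : Exponent n (n * (d - 2))) {c c' : ℂ} (hc : mon i - C c * hessian a ∈ jacobianIdeal a)
    (hc' : mon i - C c' * hessian a ∈ jacobianIdeal a) : c = c' := by
  by_contra hne
  apply hessian_notMem hn hd ha
  have h1 := Ideal.sub_mem _ hc' hc
  have h2 : mon i - C c' * hessian a - (mon i - C c * hessian a) = C (c - c') * hessian a := by
    rw [C_sub]; ring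
  rw [h2] at h1
  have h3 := Ideal.mul_mem_left _ (C (c - c')⁻¹) h1
  rwa [← mul_assoc, ← C_mul, inv_mul_cancel₀ (sub_ne_zero.2 hne), C_1, one_mul] at h3

lemma mu_spec (hn : 1 ≤ n) (hd : 2 ≤ d) {a : Exponent n d → ℂ} (ha : Nondegenerate a)
    (i : Exponent n (n * (d - 2))) : mon i - C (mu i a) * hessian a ∈ jacobianIdeal a := by
  unfold mu
  have h := exists_mu hn hd ha i
  rw [dif_pos h]
  exact h.choose_spec

/-- `Δ μ_i` is a polynomial function. -/
theorem poly_one (hn : 2 ≤ n) (hd : 3 ≤ d) {Δ : MvPolynomial (Exponent n d) ℂ}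
    (hΔ : IsDiscriminant Δ) (i : Exponent n (n * (d - 2))) : IsPolynomialFunction Δ i 1 := by
  obtain ⟨c, hc⟩ := key (by omega) (by omega) hΔ.mem i
  refine ⟨c, fun a ha => ?_⟩
  have hne : eval a Δ ≠ 0 := (hΔ.2 a).2 ha
  have h1 : mon i - C ((eval a Δ)⁻¹ * eval a c) * hessian a ∈ jacobianIdeal a := by
    have h2 := Ideal.mul_mem_left _ (C (eval a Δ)⁻¹) (hc a)
    have h3 : C (eval a Δ)⁻¹ * (C (eval a Δ) * mon i - C (eval a c) * hessian a) =
        mon i - C ((eval a Δ)⁻¹ * eval a c) * hessian a := by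
      rw [mul_sub, ← mul_assoc, ← C_mul, inv_mul_cancel₀ hne, C_1, one_mul, ← mul_assoc, ← C_mul]
    rwa [h3] at h2
  have h4 := mu_unique hn hd ha i (mu_spec (by omega) (by omega) ha i) h1
  rw [h4, zpow_one, mul_inv_cancel_left₀ hne]

/-! ### Scaling -/

lemma pderiv_smul (t : ℂ) (a : Exponent n d → ℂ) (j : Fin n) :
    pderiv j (form (t • a)) = C t * pderiv j (form a) := by
  rw [form_smul, pderiv_C_mul]

lemma jacobian_smul {t : ℂ} (ht : t ≠ 0) (a : Exponent n d → ℂ) :
    jacobianIdeal (t • a) = jacobianIdeal a := by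
  have key : ∀ (s : ℂ) (b : Exponent n d → ℂ), jacobianIdeal (s • b) ≤ jacobianIdeal b := by
    intro s b
    unfold jacobianIdeal
    rw [Ideal.span_le]
    rintro _ ⟨j, rfl⟩
    change pderiv j (form (s • b)) ∈ _
    rw [pderiv_smul]
    exact Ideal.mul_mem_left _ _ (Ideal.subset_span ⟨j, rfl⟩)
  apply le_antisymm (key t a)
  have h1 := key t⁻¹ (t • a)
  rwa [smul_smul, inv_mul_cancel₀ ht, one_smul] at h1

lemma hessian_smul (t : ℂ) (a : Exponent n d → ℂ) :
    hessian (t • a) = C (t ^ n) * hessian a := by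
  unfold hessian
  have h1 : (Matrix.of fun i j : Fin n => pderiv i (pderiv j (form (t • a)))) =
      (C t : MvPolynomial (Fin n) ℂ) • (Matrix.of fun i j : Fin n =>
        pderiv i (pderiv j (form a))) := by
    ext1 i j
    rw [Matrix.smul_apply, Matrix.of_apply, Matrix.of_apply, pderiv_smul, pderiv_C_mul,
      smul_eq_mul]
  rw [h1, Matrix.det_smul, Fintype.card_fin, C_pow]

lemma nondegenerate_smul {t : ℂ} (ht : t ≠ 0) {a : Exponent n d → ℂ} (ha : Nondegenerate a) :
    Nondegenerate (t • a) := by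
  intro z hz
  apply ha
  intro j
  have h1 := hz j
  rw [pderiv_smul, map_mul, eval_C] at h1
  exact (mul_eq_zero.1 h1).resolve_left ht

lemma mu_smul (hn : 2 ≤ n) (hd : 3 ≤ d) {t : ℂ} (ht : t ≠ 0) {a : Exponent n d → ℂ}
    (ha : Nondegenerate a) (i : Exponent n (n * (d - 2))) :
    mu i (t • a) * t ^ n = mu i a := by
  have h1 := mu_spec (n := n) (by omega) (by omega) (nondegenerate_smul ht ha) i
  rw [jacobian_smul ht, hessian_smul, ← mul_assoc, ← C_mul] at h1
  exact mu_unique hn hd ha i h1 (mu_spec (by omega) (by omega) ha i)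

/-- A polynomial function which agrees with `μ_i` is zero. -/
theorem mu_eq_zero_of (hn : 2 ≤ n) (hd : 3 ≤ d) (i : Exponent n (n * (d - 2)))
    (Q : MvPolynomial (Exponent n d) ℂ) (hQ : ∀ a, Nondegenerate a → mu i a = eval a Q)
    (a : Exponent n d → ℂ) (ha : Nondegenerate a) : mu i a = 0 := by
  let R : Polynomial ℂ := (aeval (fun m => Polynomial.X * Polynomial.C (a m)) Q) *
    Polynomial.X ^ n - Polynomial.C (eval a Q)
  have hR : ∀ t : ℂ, Polynomial.eval t R = eval (t • a) Q * t ^ n - eval a Q := by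
    intro t
    have h1 : ∀ Q' : MvPolynomial (Exponent n d) ℂ,
        Polynomial.eval t (aeval (fun m => Polynomial.X * Polynomial.C (a m)) Q') =
        eval (t • a) Q' := by
      intro Q'
      induction Q' using MvPolynomial.induction_on with
      | C c =>
        rw [aeval_C, eval_C]
        change Polynomial.eval t (Polynomial.C c) = c
        rw [Polynomial.eval_C]
      | add p q hp hq =>
        rw [map_add, Polynomial.eval_add, hp, hq, map_add]
      | mul_X p m hp =>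
        rw [map_mul, Polynomial.eval_mul, hp, map_mul, aeval_X, eval_X, Polynomial.eval_mul,
          Polynomial.eval_X, Polynomial.eval_C, Pi.smul_apply, smul_eq_mul]
    simp only [R, Polynomial.eval_sub, Polynomial.eval_mul, h1, Polynomial.eval_pow,
      Polynomial.eval_X, Polynomial.eval_C]
  have hR0 : R = 0 := by
    apply Polynomial.eq_zero_of_infinite_isRoot
    apply Set.Infinite.mono (s := {t : ℂ | t ≠ 0})
    · intro t ht
      rw [Set.mem_ofPred_eq] at ht
      change Polynomial.eval t R = 0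
      rw [hR, ← hQ _ (nondegenerate_smul ht ha), ← hQ a ha, mu_smul hn hd ht ha, sub_self]
    · exact (Set.finite_singleton (0 : ℂ)).infinite_compl
  have h0 := hR 0
  rw [hR0, Polynomial.eval_zero, zero_pow (by omega), mul_zero, zero_sub] at h0
  rw [hQ a ha]
  exact neg_eq_zero.1 h0.symm

theorem one_le (hn : 2 ≤ n) (hd : 3 ≤ d) {Δ : MvPolynomial (Exponent n d) ℂ}
    (hΔ : IsDiscriminant Δ) (i : Exponent n (n * (d - 2)))
    (hi : ∃ a, Nondegenerate a ∧ mu i a ≠ 0) (p : ℤ) (hp : IsPolynomialFunction Δ i p) :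
    1 ≤ p := by
  by_contra hcon
  push Not at hcon
  obtain ⟨a, ha, hne⟩ := hi
  apply hne
  obtain ⟨P, hP⟩ := hp
  obtain ⟨q, hq⟩ := Int.eq_ofNat_of_zero_le (show 0 ≤ -p by omega)
  refine mu_eq_zero_of hn hd i (Δ ^ q * P) ?_ a ha
  intro b hb
  have hne : eval b Δ ≠ 0 := (hΔ.2 b).2 hb
  rw [map_mul, ← hP b hb, map_pow, ← mul_assoc, ← zpow_natCast, ← zpow_add₀ hne, ← hq]
  simp

theorem exists_mu_ne_zero (hn : 2 ≤ n) (hd : 3 ≤ d) :
    ∃ (i : Exponent n (n * (d - 2))) (a : Exponent n d → ℂ), Nondegenerate a ∧ mu i a ≠ 0 := by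
  obtain ⟨a, ha⟩ := exists_nondegenerate (n := n) (d := d) (by omega)
  by_contra hcon
  push Not at hcon
  apply not_all hn hd (a := a)
  intro γ
  have h1 := mu_spec (by omega) (by omega) ha γ
  rw [hcon γ a ha, C_0, zero_mul, sub_zero] at h1
  exact h1

end Pool.Agent.H42EE
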