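import Mathlib

set_option autoImplicit false

/-!
Polynomials with pairwise coprime leading monomials, and the torsion of the quotient ring in a
critical degree.
-/

namespace Pool.Agent.H42EE

open MvPolynomial MonomialOrder

variable {σ : Type} {k : Type} [Field k]

/-- Every nonzero element of an ideal generated by polynomials with pairwise coprime leading
monomials has a leading monomial divisible by one of them. -/
theorem groebner_coprime (m : MonomialOrder σ) {ι : Type} [DecidableEq ι]
    (F : ι → MvPolynomial σ k)
    (hF : ∀ i, F i ≠ 0)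
    (hco : ∀ i j, i ≠ j → ∀ s, m.degree (F i) s = 0 ∨ m.degree (F j) s = 0)
    (S : Finset ι) : ∀ g : MvPolynomial σ k, g ∈ Ideal.span (F '' S) → g ≠ 0 →
    ∃ i ∈ S, m.degree (F i) ≤ m.degree g := by
  induction S using Finset.induction_on with
  | empty =>
    intro g hg hg0
    simp at hg
    exact absurd hg hg0
  | insert j S hj ih =>
    intro g hg hg0
    rw [Finset.coe_insert, Set.image_insert_eq, Ideal.mem_span_insert] at hg
    obtain ⟨a, h, hh, rfl⟩ := hg
    obtain ⟨c, r, har, -, hr⟩ := m.div (b := fun i : S => F i)
      (fun i => by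
        rw [isUnit_iff_ne_zero, MonomialOrder.leadingCoeff_ne_zero_iff]; exact hF i) a
    have hlin : Finsupp.linearCombination _ (fun i : S => F i) c ∈ Ideal.span (F '' S) := by
      rw [Finsupp.linearCombination_apply]
      apply Ideal.sum_mem
      intro i _
      exact Ideal.mul_mem_left _ _ (Ideal.subset_span ⟨i, i.2, rfl⟩)
    set h' := h + Finsupp.linearCombination _ (fun i : S => F i) c * F j with hh'
    have hmem : h' ∈ Ideal.span (F '' S) := by
      apply Ideal.add_mem _ hh
      exact Ideal.mul_mem_right _ _ hlin
    have hg' : a * F j + h = r * F j + h' := by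
      rw [hh', har]
      ring
    rw [hg'] at hg0 ⊢
    by_cases hr0 : r = 0
    · rw [hr0, zero_mul, zero_add] at hg0 ⊢
      obtain ⟨i, hi, hle⟩ := ih h' hmem hg0
      exact ⟨i, Finset.mem_insert_of_mem hi, hle⟩
    by_cases hh0 : h' = 0
    · rw [hh0, add_zero] at hg0 ⊢
      refine ⟨j, Finset.mem_insert_self _ _, ?_⟩
      rw [m.degree_mul hr0 (hF j)]
      exact le_add_self
    obtain ⟨i, hi, hle⟩ := ih h' hmem hh0
    have hne : m.degree (r * F j) ≠ m.degree h' := by
      intro heq
      rw [← heq, m.degree_mul hr0 (hF j)] at hle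
      apply hr (m.degree r) ((m.degree_mem_support_iff r).2 hr0) ⟨i, hi⟩
      intro s
      have h1 := hle s
      have hij : i ≠ j := by rintro rfl; exact hj hi
      rcases hco i j hij s with h2 | h2
      · simp [h2]
      · simp only [Finsupp.coe_add, Pi.add_apply, h2, add_zero] at h1
        exact h1
    have hsup := m.degree_add_of_ne hne
    rcases le_total (m.toSyn (m.degree (r * F j))) (m.toSyn (m.degree h')) with h1 | h1
    · rw [sup_eq_right.2 h1] at hsup
      refine ⟨i, Finset.mem_insert_of_mem hi, ?_⟩
      rw [m.toSyn.injective hsup]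
      exact hle
    · rw [sup_eq_left.2 h1] at hsup
      refine ⟨j, Finset.mem_insert_self _ _, ?_⟩
      rw [m.toSyn.injective hsup, m.degree_mul hr0 (hF j)]
      exact le_add_self

section core

variable {n : ℕ} (m : MonomialOrder σ) (z a : Fin n → σ) (e : ℕ)
  (F : Fin n → MvPolynomial σ k) (H : MvPolynomial σ k)

/-- the leading monomials -/
structure Setup : Prop where
  n1 : 1 ≤ n
  e1 : 1 ≤ e
  zinj : Function.Injective z
  ainj : Function.Injective a
  za : ∀ i j, z i ≠ a j
  F0 : ∀ i, F i ≠ 0
  degF : ∀ i, m.degree (F i) = Finsupp.single (a i) 1 + Finsupp.single (z i) e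

variable {m z a e F H}

lemma Setup.degF_z (S : Setup m z a e F) (i j : Fin n) :
    m.degree (F i) (z j) = if i = j then e else 0 := by
  classical
  rw [S.degF i, Finsupp.add_apply, Finsupp.single_apply, Finsupp.single_apply,
    if_neg (fun h => S.za j i h.symm), zero_add]
  by_cases h : i = j
  · subst h; simp
  · rw [if_neg h, if_neg (fun h' => h (S.zinj h'))]

lemma Setup.degF_a (S : Setup m z a e F) (i j : Fin n) :
    m.degree (F i) (a j) = if i = j then 1 else 0 := by
  classical
  rw [S.degF i, Finsupp.add_apply, Finsupp.single_apply, Finsupp.single_apply,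
    if_neg (S.za i j), add_zero]
  by_cases h : i = j
  · subst h; simp
  · rw [if_neg h, if_neg (fun h' => h (S.ainj h'))]

lemma Setup.degF_other (S : Setup m z a e F) (i : Fin n) (s : σ) (h1 : s ≠ a i) (h2 : s ≠ z i) :
    m.degree (F i) s = 0 := by
  classical
  rw [S.degF i, Finsupp.add_apply, Finsupp.single_apply, Finsupp.single_apply,
    if_neg h1.symm, if_neg h2.symm, add_zero]

lemma Setup.coprime (S : Setup m z a e F) (i j : Fin n) (hij : i ≠ j) (s : σ) :
    m.degree (F i) s = 0 ∨ m.degree (F j) s = 0 := by
  by_cases h1 : s = a i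
  · right
    subst h1
    rw [S.degF_a, if_neg hij.symm]
  by_cases h2 : s = z i
  · right
    subst h2
    rw [S.degF_z, if_neg hij.symm]
  left
  exact S.degF_other i s h1 h2

/-- The leading monomials of the elements of the ideal. -/
theorem Setup.mem_span (S : Setup m z a e F) (g : MvPolynomial σ k)
    (hg : g ∈ Ideal.span (Set.range F)) (hg0 : g ≠ 0) : ∃ i, m.degree (F i) ≤ m.degree g := by
  obtain ⟨i, -, hi⟩ := groebner_coprime m F S.F0 S.coprime Finset.univ g (by simpa using hg) hg0
  exact ⟨i, hi⟩

/-- Leading monomials of the elements of the saturation. -/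
theorem Setup.mem_sat (S : Setup m z a e F) (g : MvPolynomial σ k)
    (hg : ∀ j, ∃ N : ℕ, X (z j) ^ N * g ∈ Ideal.span (Set.range F)) (hg0 : g ≠ 0) :
    (∃ i, m.degree (F i) ≤ m.degree g) ∨ ∀ j, 1 ≤ m.degree g (a j) := by
  by_contra hcon
  push Not at hcon
  obtain ⟨h1, j, hj⟩ := hcon
  obtain ⟨N, hN⟩ := hg j
  have hX : (X (z j) : MvPolynomial σ k) ^ N ≠ 0 := pow_ne_zero _ (X_ne_zero _)
  obtain ⟨i, hi⟩ := S.mem_span _ hN (mul_ne_zero hX hg0)
  rw [m.degree_mul hX hg0, m.degree_pow, m.degree_X] at hi
  apply h1 i
  intro s
  have h2 := hi s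
  simp only [Finsupp.coe_add, Finsupp.coe_smul, Pi.add_apply, Pi.smul_apply, smul_eq_mul] at h2
  by_cases hs : s = z j
  · subst hs
    rw [S.degF_z] at h2 ⊢
    by_cases hij : i = j
    · subst hij
      exfalso
      have h3 := hi (a i)
      classical
      rw [S.degF_a, if_pos rfl, Finsupp.add_apply, Finsupp.smul_apply, Finsupp.single_apply,
        if_neg (S.za i i), smul_zero, zero_add] at h3
      omega
    · rw [if_neg hij]; exact Nat.zero_le _
  · classical
    rw [Finsupp.single_apply, if_neg (Ne.symm hs), mul_zero, zero_add] at h2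
    exact h2

/-- The weights: `1` for the variables `z j`, `0` for the others. -/
noncomputable def wt (z : Fin n → σ) (s : σ) : ℕ := by
  classical exact if ∃ j, s = z j then 1 else 0

lemma wt_z (j : Fin n) : wt z (z j) = 1 := by
  unfold wt; rw [if_pos ⟨j, rfl⟩]

lemma wt_other {s : σ} (h : ∀ j, s ≠ z j) : wt z s = 0 := by
  unfold wt; rw [if_neg]; push Not; exact h

lemma weight_eq (hz : Function.Injective z) (s : σ →₀ ℕ) :
    Finsupp.weight (wt z) s = ∑ j, s (z j) := by
  classical
  rw [Finsupp.weight_apply, Finsupp.sum]
  have h1 : ∑ i ∈ s.support, s i • wt z i = ∑ i ∈ s.support, ∑ j, if i = z j then s (z j) else 0 := by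
    apply Finset.sum_congr rfl
    intro i _
    by_cases h : ∃ j, i = z j
    · obtain ⟨j, rfl⟩ := h
      rw [wt_z, Finset.sum_eq_single j]
      · simp
      · intro b _ hb
        rw [if_neg (fun h => hb (hz h.symm))]
      · simp
    · push Not at h
      rw [wt_other h, smul_zero, Finset.sum_eq_zero]
      intro j _
      rw [if_neg (h j)]
  rw [h1, Finset.sum_comm]
  apply Finset.sum_congr rfl
  intro j _
  rw [Finset.sum_ite_eq']
  split_ifs with h
  · rfl
  · rw [Finsupp.notMem_support_iff] at h
    exact h.symm

/-- **The torsion in the critical degree.** -/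
theorem Setup.core (S : Setup m z a e F) (hFw : ∀ i, IsWeightedHomogeneous (wt z) (F i) e)
    (hHw : IsWeightedHomogeneous (wt z) H (n * (e - 1)))
    (hH0 : H ≠ 0)
    (hH : m.degree H = ∑ j, (Finsupp.single (a j) 1 + Finsupp.single (z j) (e - 1)))
    (hHI : ∀ j, ∃ N : ℕ, X (z j) ^ N * H ∈ Ideal.span (Set.range F)) :
    ∀ g : MvPolynomial σ k, IsWeightedHomogeneous (wt z) g (n * (e - 1)) →
    (∀ j, ∃ N : ℕ, X (z j) ^ N * g ∈ Ideal.span (Set.range F)) →
    ∃ c : MvPolynomial σ k, IsWeightedHomogeneous (wt z) c 0 ∧
      g - c * H ∈ Ideal.span (Set.range F) := by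
  classical
  have hHT : ∀ s : σ →₀ ℕ, m.degree H ≤ s ↔ (∀ j, 1 ≤ s (a j) ∧ e - 1 ≤ s (z j)) := by
    intro s
    have ha : ∀ i, m.degree H (a i) = 1 := by
      intro i
      rw [hH, Finsupp.finsetSum_apply, Finset.sum_eq_single i]
      · rw [Finsupp.add_apply, Finsupp.single_apply, Finsupp.single_apply, if_pos rfl,
          if_neg (S.za i i), add_zero]
      · intro b _ hb
        rw [Finsupp.add_apply, Finsupp.single_apply, Finsupp.single_apply,
          if_neg (fun h => hb (S.ainj h)), if_neg (S.za b i), add_zero]
      · simp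
    have hz : ∀ i, m.degree H (z i) = e - 1 := by
      intro i
      rw [hH, Finsupp.finsetSum_apply, Finset.sum_eq_single i]
      · rw [Finsupp.add_apply, Finsupp.single_apply, Finsupp.single_apply, if_pos rfl,
          if_neg (fun h => S.za i i h.symm), zero_add]
      · intro b _ hb
        rw [Finsupp.add_apply, Finsupp.single_apply, Finsupp.single_apply,
          if_neg (fun h => S.za i b h.symm), if_neg (fun h => hb (S.zinj h)), add_zero]
      · simp
    have ho : ∀ s, (∀ i, s ≠ a i) → (∀ i, s ≠ z i) → m.degree H s = 0 := by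
      intro s h1 h2
      rw [hH, Finsupp.finsetSum_apply, Finset.sum_eq_zero]
      intro i _
      rw [Finsupp.add_apply, Finsupp.single_apply, Finsupp.single_apply,
        if_neg (h1 i).symm, if_neg (h2 i).symm, add_zero]
    constructor
    · intro h j
      exact ⟨by rw [← ha j]; exact h _, by rw [← hz j]; exact h _⟩
    · intro h x
      by_cases h1 : ∃ i, x = a i
      · obtain ⟨i, rfl⟩ := h1
        rw [ha]; exact (h i).1
      by_cases h2 : ∃ i, x = z i
      · obtain ⟨i, rfl⟩ := h2
        rw [hz]; exact (h i).2
      push Not at h1 h2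
      rw [ho x h1 h2]
      exact Nat.zero_le _
  have key : ∀ s : m.syn, ∀ g : MvPolynomial σ k, m.toSyn (m.degree g) = s →
      IsWeightedHomogeneous (wt z) g (n * (e - 1)) →
      (∀ j, ∃ N : ℕ, X (z j) ^ N * g ∈ Ideal.span (Set.range F)) →
      ∃ c : MvPolynomial σ k, IsWeightedHomogeneous (wt z) c 0 ∧
        g - c * H ∈ Ideal.span (Set.range F) := by
    intro s
    induction s using WellFoundedLT.induction with
    | ind s ih =>
      intro g hgs hgw hg
      by_cases hg0 : g = 0
      · refine ⟨0, isWeightedHomogeneous_zero _ _ _, ?_⟩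
        rw [hg0]; simp
      have hsup : m.degree g ∈ g.support := (m.degree_mem_support_iff g).2 hg0
      have hwt : Finsupp.weight (wt z) (m.degree g) = n * (e - 1) := hgw (mem_support_iff.1 hsup)
      rw [weight_eq S.zinj] at hwt
      -- reduction step
      have step : ∀ (b : MvPolynomial σ k) (wb : ℕ), b ≠ 0 → IsWeightedHomogeneous (wt z) b wb →
          wb ≤ n * (e - 1) → m.degree b ≤ m.degree g → m.degree b ≠ 0 →
          (∀ j, ∃ N : ℕ, X (z j) ^ N * b ∈ Ideal.span (Set.range F)) →
          ∃ t : MvPolynomial σ k, IsWeightedHomogeneous (wt z) t (n * (e - 1) - wb) ∧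
            ∃ c : MvPolynomial σ k, IsWeightedHomogeneous (wt z) c 0 ∧
            g - t * b - c * H ∈ Ideal.span (Set.range F) := by
        intro b wb hb0 hbw hwb hbg hbd hbT
        have hu : IsUnit (m.leadingCoeff b) := by
          rw [isUnit_iff_ne_zero, MonomialOrder.leadingCoeff_ne_zero_iff]; exact hb0
        have hgd : m.degree g ≠ 0 := by
          intro h
          rw [h] at hbg
          exact hbd (le_antisymm hbg (by simp))
        have hlt := m.degree_reduce_lt hu hbg hgd
        set t := monomial (m.degree g - m.degree b) (hu.unit⁻¹ * m.leadingCoeff g) with ht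
        have hred : m.reduce hu g = g - t * b := rfl
        rw [hred] at hlt
        have htw : IsWeightedHomogeneous (wt z) t (n * (e - 1) - wb) := by
          apply isWeightedHomogeneous_monomial
          have h1 : Finsupp.weight (wt z) (m.degree b) = wb :=
            hbw (mem_support_iff.1 ((m.degree_mem_support_iff b).2 hb0))
          have h2 : Finsupp.weight (wt z) (m.degree g) = n * (e - 1) :=
            hgw (mem_support_iff.1 hsup)
          have h3 : Finsupp.weight (wt z) (m.degree g - m.degree b) +
              Finsupp.weight (wt z) (m.degree b) = Finsupp.weight (wt z) (m.degree g) := by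
            rw [← map_add, tsub_add_cancel_of_le hbg]
          omega
        have htb : IsWeightedHomogeneous (wt z) (t * b) (n * (e - 1)) := by
          have := htw.mul hbw
          rwa [Nat.sub_add_cancel hwb] at this
        refine ⟨t, htw, ?_⟩
        rw [hgs] at hlt
        refine ih _ hlt (g - t * b) rfl ?_ ?_
        · exact Submodule.sub_mem (weightedHomogeneousSubmodule k (wt z) _) hgw htb
        · intro j
          obtain ⟨N1, h1⟩ := hg j
          obtain ⟨N2, h2⟩ := hbT j
          refine ⟨N1 + N2, ?_⟩
          have : X (z j) ^ (N1 + N2) * (g - t * b) =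
              X (z j) ^ N2 * (X (z j) ^ N1 * g) - (X (z j) ^ N1 * t) * (X (z j) ^ N2 * b) := by
            ring
          rw [this]
          exact Ideal.sub_mem _ (Ideal.mul_mem_left _ _ h1) (Ideal.mul_mem_left _ _ h2)
      by_cases hα : ∃ i, m.degree (F i) ≤ m.degree g
      · obtain ⟨i, hi⟩ := hα
        have hle : e ≤ n * (e - 1) := by
          have h1 := hi (z i)
          rw [S.degF_z, if_pos rfl] at h1
          calc e ≤ m.degree g (z i) := h1
            _ ≤ ∑ j, m.degree g (z j) :=
              Finset.single_le_sum (f := fun j => m.degree g (z j)) (fun _ _ => Nat.zero_le _)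
                (Finset.mem_univ i)
            _ = _ := hwt
        obtain ⟨t, -, c, hc, hmem⟩ := step (F i) e (S.F0 i) (hFw i) hle hi (by
            intro h
            have h1 := S.degF_a i i
            rw [h, if_pos rfl] at h1
            simp at h1) (fun j => ⟨0, by
              rw [pow_zero, one_mul]; exact Ideal.subset_span ⟨i, rfl⟩⟩)
        refine ⟨c, hc, ?_⟩
        have : g - c * H = (g - t * F i - c * H) + t * F i := by ring
        rw [this]
        exact Ideal.add_mem _ hmem (Ideal.mul_mem_left _ _ (Ideal.subset_span ⟨i, rfl⟩))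
      · have hβ : ∀ j, 1 ≤ m.degree g (a j) := by
          rcases S.mem_sat g hg hg0 with h | h
          · exact absurd h hα
          · exact h
        push Not at hα
        have hz : ∀ j, m.degree g (z j) ≤ e - 1 := by
          intro j
          by_contra hcon
          push Not at hcon
          apply hα j
          intro s
          by_cases h1 : s = a j
          · subst h1
            rw [S.degF_a, if_pos rfl]; exact hβ j
          by_cases h2 : s = z j
          · subst h2
            rw [S.degF_z, if_pos rfl]; omega
          rw [S.degF_other j s h1 h2]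
          exact Nat.zero_le _
        have hz' : ∀ j, m.degree g (z j) = e - 1 := by
          have h1 : ∑ j : Fin n, m.degree g (z j) = ∑ _j : Fin n, (e - 1) := by
            rw [hwt, Finset.sum_const, Finset.card_univ, Fintype.card_fin, smul_eq_mul]
          have h2 := (Finset.sum_eq_sum_iff_of_le (s := Finset.univ)
            (fun j _ => hz j)).1 h1
          intro j
          exact h2 j (Finset.mem_univ j)
        have hHg : m.degree H ≤ m.degree g := by
          rw [hHT]
          exact fun j => ⟨hβ j, (hz' j).ge⟩
        obtain ⟨t, ht, c, hc, hmem⟩ := step H (n * (e - 1)) hH0 hHw le_rfl hHg (by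
            intro h
            have h1 := (hHT 0).1 (by rw [h]) ⟨0, S.n1⟩
            simp at h1) hHI
        rw [Nat.sub_self] at ht
        refine ⟨c + t, Submodule.add_mem (weightedHomogeneousSubmodule k (wt z) _) hc ht, ?_⟩
        have : g - (c + t) * H = g - t * H - c * H := by ring
        rw [this]
        exact hmem
  intro g hg1 hg2
  exact key _ g rfl hg1 hg2

end core

end Pool.Agent.H42EE
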