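import Pool.Agent.H42EE.Chart

set_option autoImplicit false

namespace Pool.Agent.H42EE

open MvPolynomial MonomialOrder

variable {n d : ℕ}

/-- the exponent as a finitely supported function -/
noncomputable def toF {k : ℕ} (m : Exponent n k) : Fin n →₀ ℕ :=
  Finsupp.equivFunOnFinite.symm (fun i => (m.1 i : ℕ))

lemma toF_apply {k : ℕ} (m : Exponent n k) (i : Fin n) : toF m i = (m.1 i : ℕ) := rfl

lemma toF_inj {k : ℕ} : Function.Injective (toF : Exponent n k → _) := by
  intro m m' h
  apply Subtype.ext
  funext i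
  apply Fin.ext
  have := DFunLike.congr_fun h i
  exact this

lemma mon_eq {k : ℕ} (m : Exponent n k) : mon m = monomial (toF m) 1 := by
  unfold mon
  rw [monomial_eq, C_1, one_mul, Finsupp.prod_fintype _ _ (by simp)]
  rfl

lemma degree_toF {k : ℕ} (m : Exponent n k) : (toF m).degree = k := by
  rw [Finsupp.degree_eq_sum]
  exact m.2

lemma exists_toF {k : ℕ} {s : Fin n →₀ ℕ} (hs : s.degree = k) : ∃ m : Exponent n k, toF m = s := by
  rw [Finsupp.degree_eq_sum] at hs
  refine ⟨⟨fun i => ⟨s i, ?_⟩, hs⟩, ?_⟩
  · have : s i ≤ ∑ i, s i :=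
      Finset.single_le_sum (f := fun i => s i) (fun _ _ => Nat.zero_le _) (Finset.mem_univ i)
    omega
  · ext i
    rfl

lemma mon_hom {k : ℕ} (m : Exponent n k) : (mon m).IsHomogeneous k := by
  rw [mon_eq]
  exact isHomogeneous_monomial _ (degree_toF m)

/-- A homogeneous polynomial is a combination of the monomials of its degree. -/
lemma hom_expand {k : ℕ} {p : MvPolynomial (Fin n) ℂ} (hp : p.IsHomogeneous k) :
    p = ∑ m : Exponent n k, C (coeff (toF m) p) * mon m := by
  classical
  ext s
  rw [coeff_sum]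
  simp_rw [coeff_C_mul, mon_eq, coeff_monomial]
  by_cases hs : s.degree = k
  · obtain ⟨m, rfl⟩ := exists_toF hs
    rw [Finset.sum_eq_single m]
    · simp
    · intro b _ hb
      rw [if_neg (fun h => hb (toF_inj h)), mul_zero]
    · simp
  · rw [hp.coeff_eq_zero hs, Finset.sum_eq_zero]
    intro m _
    rw [if_neg, mul_zero]
    rintro rfl
    exact hs (degree_toF m)

lemma form_hom (a : Exponent n d → ℂ) : (form a).IsHomogeneous d := by
  unfold form
  apply IsHomogeneous.sum
  intro m _
  have := (isHomogeneous_C (Fin n) (a m)).mul (mon_hom m)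
  rwa [zero_add] at this

/-- homogeneous components of a product with a homogeneous polynomial -/
lemma homogeneousComponent_mul {e k : ℕ} (he : e ≤ k) (q : MvPolynomial (Fin n) ℂ)
    {g : MvPolynomial (Fin n) ℂ} (hg : g.IsHomogeneous e) :
    homogeneousComponent k (q * g) = homogeneousComponent (k - e) q * g := by
  classical
  have h1 := sum_homogeneousComponent q
  conv_lhs => rw [← h1, Finset.sum_mul, map_sum]
  have h2 : ∀ i ∈ Finset.range (q.totalDegree + 1),
      homogeneousComponent k (homogeneousComponent i q * g) =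
        if i = k - e then homogeneousComponent i q * g else 0 := by
    intro i _
    have h3 : (homogeneousComponent i q * g).IsHomogeneous (i + e) :=
      (homogeneousComponent_isHomogeneous i q).mul hg
    rw [homogeneousComponent_of_mem h3]
    by_cases h : i = k - e
    · rw [if_pos h, if_pos (by omega)]
    · rw [if_neg h, if_neg (by omega)]
  rw [Finset.sum_congr rfl h2, Finset.sum_ite_eq']
  split_ifs with h
  · rfl
  · rw [homogeneousComponent_eq_zero, zero_mul]
    rw [Finset.mem_range] at h
    omega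

lemma U_eq' : U n d = ∑ m : Exponent n d, X (Sum.inr m) * rename Sum.inl (mon m) := by
  unfold U mon
  apply Finset.sum_congr rfl
  intro m _
  rw [map_prod]
  simp_rw [map_pow, rename_X]

lemma UF_eq' (j : Fin n) : UF (d := d) j =
    ∑ m : Exponent n d, X (Sum.inr m) * rename Sum.inl (pderiv j (mon m)) := by
  unfold UF
  rw [U_eq', map_sum]
  apply Finset.sum_congr rfl
  intro m _
  rw [pderiv_mul, pderiv_X, Pi.single_eq_of_ne (by simp), zero_mul, zero_add,
    pderiv_rename Sum.inl_injective]

/-- Macaulay type determinants. -/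
theorem mac {k : ℕ} (hk : d - 1 ≤ k) (a : Exponent n d → ℂ)
    (ha : ∀ γ : Exponent n k, mon γ ∈ jacobianIdeal a) :
    ∃ P : MvPolynomial (Exponent n d) ℂ, eval a P = 1 ∧
      ∀ γ : Exponent n k, rename Sum.inr P * rename Sum.inl (mon γ) ∈ UI n d := by
  classical
  -- homogeneous representations
  have h1 : ∀ γ : Exponent n k, ∃ q : Fin n → MvPolynomial (Fin n) ℂ,
      (∀ i, (q i).IsHomogeneous (k - (d - 1))) ∧ ∑ i, q i * pderiv i (form a) = mon γ := by
    intro γ
    obtain ⟨q, hq⟩ := Ideal.mem_span_range_iff_exists_fun.1 (ha γ)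
    refine ⟨fun i => homogeneousComponent (k - (d - 1)) (q i),
      fun i => homogeneousComponent_isHomogeneous _ _, ?_⟩
    have h2 := congrArg (homogeneousComponent k) hq
    rw [map_sum, homogeneousComponent_of_mem (mon_hom γ), if_pos rfl] at h2
    rw [← h2]
    apply Finset.sum_congr rfl
    intro i _
    rw [homogeneousComponent_mul hk]
    exact (form_hom a).pderiv
  choose q hq1 hq2 using h1
  -- the products
  have hom : ∀ (γ : Exponent n k) (m : Exponent n d),
      (∑ i, q γ i * pderiv i (mon m)).IsHomogeneous k := by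
    intro γ m
    apply IsHomogeneous.sum
    intro i _
    have := (hq1 γ i).mul ((mon_hom m).pderiv (i := i))
    rwa [Nat.sub_add_cancel hk] at this
  set M : Matrix (Exponent n k) (Exponent n k) (MvPolynomial (Exponent n d) ℂ) :=
    Matrix.of fun γ γ' => ∑ m : Exponent n d,
      X m * C (coeff (toF γ') (∑ i, q γ i * pderiv i (mon m))) with hM
  have hrow : ∀ γ : Exponent n k, ∑ γ' : Exponent n k,
      rename Sum.inr (M γ γ') * rename Sum.inl (mon γ') =
        ∑ i, rename Sum.inl (q γ i) * UF (d := d) i := by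
    intro γ
    have e1 : ∑ i, rename Sum.inl (q γ i) * UF (d := d) i = ∑ m : Exponent n d,
        X (Sum.inr m) * rename Sum.inl (∑ i, q γ i * pderiv i (mon m)) := by
      simp_rw [UF_eq', Finset.mul_sum, map_sum, map_mul]
      rw [Finset.sum_comm]
      apply Finset.sum_congr rfl
      intro m _
      rw [Finset.mul_sum]
      apply Finset.sum_congr rfl
      intro i _
      ring
    rw [e1]
    have e2 : ∀ m : Exponent n d, X (Sum.inr m) * rename Sum.inl (∑ i, q γ i * pderiv i (mon m)) =
        ∑ γ' : Exponent n k, (X (Sum.inr m) *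
          C (coeff (toF γ') (∑ i, q γ i * pderiv i (mon m)))) *
            (rename Sum.inl (mon γ') : MvPolynomial (Vr n d) ℂ) := by
      intro m
      conv_lhs => rw [hom_expand (hom γ m)]
      rw [map_sum, Finset.mul_sum]
      apply Finset.sum_congr rfl
      intro γ' _
      rw [map_mul, rename_C, mul_assoc]
    simp_rw [e2]
    rw [Finset.sum_comm]
    apply Finset.sum_congr rfl
    intro γ' _
    rw [← Finset.sum_mul]
    congr 1
    rw [hM, Matrix.of_apply, map_sum]
    apply Finset.sum_congr rfl
    intro m _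
    rw [map_mul, rename_X, rename_C]
  refine ⟨M.det, ?_, ?_⟩
  · rw [RingHom.map_det]
    have : (eval a).mapMatrix M = 1 := by
      ext γ γ'
      rw [RingHom.mapMatrix_apply, Matrix.map_apply, hM, Matrix.of_apply, map_sum]
      have e3 : ∀ m : Exponent n d, eval a (X m * C (coeff (toF γ')
          (∑ i, q γ i * pderiv i (mon m)))) =
          coeff (toF γ') (∑ i, q γ i * pderiv i (C (a m) * mon m)) := by
        intro m
        rw [map_mul, eval_X, eval_C, ← coeff_C_mul, Finset.mul_sum]
        congr 1
        apply Finset.sum_congr rfl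
        intro i _
        rw [pderiv_C_mul]
        ring
      simp_rw [e3]
      rw [← coeff_sum, Finset.sum_comm]
      simp_rw [← Finset.mul_sum, ← map_sum]
      have e4 : ∑ i, q γ i * pderiv i (∑ m : Exponent n d, C (a m) * mon m) = mon γ := hq2 γ
      rw [e4, mon_eq, coeff_monomial, Matrix.one_apply]
      by_cases h : γ = γ'
      · rw [if_pos h, if_pos (by rw [h])]
      · rw [if_neg h, if_neg (fun h' => h (toF_inj h'))]
    rw [this, Matrix.det_one]
  · intro γ
    set N : Matrix (Exponent n k) (Exponent n k) (MvPolynomial (Vr n d) ℂ) :=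
      (rename (R := ℂ) (Sum.inr : Exponent n d → Vr n d)).mapMatrix M with hN
    have h2 : N.mulVec (fun γ' => rename Sum.inl (mon γ')) =
        fun γ => ∑ i, rename Sum.inl (q γ i) * UF (d := d) i := by
      funext γ
      rw [← hrow γ]
      rfl
    have h3 : (N.adjugate.mulVec (N.mulVec (fun γ' => rename Sum.inl (mon γ')))) γ ∈ UI n d := by
      rw [h2]
      apply Ideal.sum_mem
      intro γ' _
      apply Ideal.mul_mem_left
      exact Ideal.sum_mem _ (fun i _ => Ideal.mul_mem_left _ _ (UF_mem i))
    rw [Matrix.mulVec_mulVec, Matrix.adjugate_mul, Matrix.smul_mulVec, Matrix.one_mulVec] at h3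
    rw [Pi.smul_apply, smul_eq_mul, hN, ← AlgHom.map_det] at h3
    exact h3

/-- For a nondegenerate form all monomials of large degree are in the Jacobian ideal. -/
lemma exists_degree (hn : 1 ≤ n) (a : Exponent n d → ℂ) (ha : Nondegenerate a) :
    ∃ k, d - 1 ≤ k ∧ ∀ γ : Exponent n k, mon γ ∈ jacobianIdeal a := by
  classical
  have h1 : ∀ i : Fin n, (X i : MvPolynomial (Fin n) ℂ) ∈ (jacobianIdeal a).radical := by
    intro i
    rw [← vanishingIdeal_zeroLocus_eq_radical (K := ℂ), mem_vanishingIdeal_iff]
    intro x hx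
    have hx0 : x = 0 := by
      apply ha
      intro j
      have := hx (pderiv j (form a)) (Ideal.subset_span ⟨j, rfl⟩)
      rwa [aeval_eq_eval] at this
    rw [hx0]
    simp
  choose N hN using h1
  set K := ∑ i, N i + d with hK
  have hK' : ∀ i, (X i : MvPolynomial (Fin n) ℂ) ^ K ∈ jacobianIdeal a := by
    intro i
    have : N i ≤ K := by
      have := Finset.single_le_sum (f := N) (fun _ _ => Nat.zero_le _) (Finset.mem_univ i)
      omega
    obtain ⟨c, hc⟩ := Nat.exists_eq_add_of_le this
    rw [hc, pow_add]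
    exact Ideal.mul_mem_right _ _ (hN i)
  refine ⟨n * K, ?_, ?_⟩
  · calc d - 1 ≤ K := by omega
      _ = 1 * K := (one_mul _).symm
      _ ≤ n * K := Nat.mul_le_mul_right _ hn
  · intro γ
    obtain ⟨i, hi⟩ : ∃ i, K ≤ (γ.1 i : ℕ) := by
      by_contra hcon
      push Not at hcon
      have h2 : ∑ j, (γ.1 j : ℕ) < ∑ _j : Fin n, K :=
        Finset.sum_lt_sum_of_nonempty ⟨⟨0, hn⟩, Finset.mem_univ _⟩ (fun j _ => hcon j)
      rw [γ.2, Finset.sum_const, Finset.card_univ, Fintype.card_fin, smul_eq_mul] at h2
      exact lt_irrefl _ h2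
    unfold mon
    rw [← Finset.mul_prod_erase _ _ (Finset.mem_univ i)]
    apply Ideal.mul_mem_right
    obtain ⟨c, hc⟩ := Nat.exists_eq_add_of_le hi
    rw [hc, pow_add]
    exact Ideal.mul_mem_right _ _ (hK' i)

/-- Polynomials as in `mac` vanish at the degenerate forms. -/
lemma mem_ID_of {k : ℕ} {P : MvPolynomial (Exponent n d) ℂ}
    (hP : ∀ γ : Exponent n k, rename Sum.inr P * rename Sum.inl (mon γ) ∈ UI n d) :
    P ∈ ID n d := by
  intro b hb
  obtain ⟨z, hz, j, hj⟩ := not_nondeg.1 hb
  have h1 := sp_mem b (hP (spe k j))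
  rw [map_mul, sp_rename, sp_rename_inl] at h1
  have h2 : jacobianIdeal b ≤ RingHom.ker (eval z) := by
    unfold jacobianIdeal
    rw [Ideal.span_le]
    rintro _ ⟨i, rfl⟩
    exact hz i
  have h3 := h2 h1
  rw [RingHom.mem_ker, map_mul, eval_C] at h3
  rcases mul_eq_zero.1 h3 with h | h
  · exact h
  · exfalso
    unfold mon at h
    rw [map_prod, Finset.prod_eq_single j] at h
    · rw [map_pow, eval_X] at h
      exact hj (eq_zero_of_pow_eq_zero h)
    · intro i _ hi
      rw [spe_val, if_neg hi]; simp
    · simp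

/-- For every nondegenerate form some polynomial vanishing at the degenerate forms does not
vanish. -/
theorem exists_ID (hn : 1 ≤ n) (a : Exponent n d → ℂ) (ha : Nondegenerate a) :
    ∃ P ∈ ID n d, eval a P = 1 := by
  obtain ⟨k, hk, h1⟩ := exists_degree hn a ha
  obtain ⟨P, hP1, hP2⟩ := mac hk a h1
  exact ⟨P, mem_ID_of hP2, hP1⟩

end Pool.Agent.H42EE
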