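import Mathlib

set_option autoImplicit false

namespace Pool.Agent.H42EE

open MvPolynomial MonomialOrder

theorem lex_lt_of {σ : Type} [LinearOrder σ] [WellFoundedGT σ] {ι : Type} [Finite ι] (a : ι → σ)
    (ha : ∀ s, s ∉ Set.range a → ∀ i, a i < s) (s t : σ →₀ ℕ)
    (hle : ∀ i, s (a i) ≤ t (a i)) (hlt : ∃ i, s (a i) < t (a i)) : s ≺[lex] t := by
  rw [MonomialOrder.lex_lt_iff, Finsupp.Lex.lt_iff]
  have hfin : (a '' {i | s (a i) < t (a i)}).Finite := (Set.toFinite _).image _
  have hne : (a '' {i | s (a i) < t (a i)}).Nonempty := by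
    obtain ⟨i, hi⟩ := hlt
    exact ⟨a i, i, hi, rfl⟩
  obtain ⟨x, ⟨i, hi, rfl⟩, hx⟩ := hfin.exists_minimal hne
  refine ⟨a i, ?_, hi⟩
  intro y hy
  have hyr : y ∈ Set.range a := by
    by_contra hcon
    exact absurd (ha y hcon i) (not_lt.2 hy.le)
  obtain ⟨l, rfl⟩ := hyr
  by_contra hcon
  have h1 : s (a l) < t (a l) := lt_of_le_of_ne (hle l) hcon
  have h2 := hx ⟨l, h1, rfl⟩ hy.le
  exact absurd hy (not_lt.2 h2)

/-- A monomial order in which the variables `a i` are the most significant ones. -/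
theorem exists_order (σ : Type) [Finite σ] {n : ℕ} (a : Fin n → σ) (ha : Function.Injective a) :
    ∃ m : MonomialOrder.{0, 0} σ, ∀ s t : σ →₀ ℕ, (∀ i, s (a i) ≤ t (a i)) →
      (∃ i, s (a i) < t (a i)) → s ≺[m] t := by
  classical
  obtain ⟨N, ⟨e⟩⟩ := Finite.exists_equiv_fin σ
  let key : σ → ℕ := fun x => if h : ∃ i, x = a i then (h.choose : ℕ) else n + e x
  have hkey1 : ∀ i, key (a i) = i := by
    intro i
    have h : ∃ l, a i = a l := ⟨i, rfl⟩
    have : key (a i) = (h.choose : ℕ) := dif_pos h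
    rw [this, ← ha h.choose_spec]
  have hkey2 : ∀ x, x ∉ Set.range a → key x = n + e x := by
    intro x hx
    apply dif_neg
    rintro ⟨i, hi⟩
    exact hx ⟨i, hi.symm⟩
  have hinj : Function.Injective key := by
    intro x y hxy
    by_cases hx : x ∈ Set.range a
    · obtain ⟨i, rfl⟩ := hx
      by_cases hy : y ∈ Set.range a
      · obtain ⟨l, rfl⟩ := hy
        rw [hkey1, hkey1] at hxy
        rw [Fin.ext hxy]
      · rw [hkey1, hkey2 y hy] at hxy
        omega
    · by_cases hy : y ∈ Set.range a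
      · obtain ⟨l, rfl⟩ := hy
        rw [hkey1, hkey2 x hx] at hxy
        omega
      · rw [hkey2 x hx, hkey2 y hy] at hxy
        apply e.injective
        apply Fin.ext
        omega
  let _ : LinearOrder σ := LinearOrder.lift' key hinj
  have : WellFoundedGT σ := inferInstance
  refine ⟨MonomialOrder.lex, fun s t h1 h2 => lex_lt_of a ?_ s t h1 h2⟩
  intro x hx i
  change key (a i) < key x
  rw [hkey1, hkey2 x hx]
  omega

end Pool.Agent.H42EE
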