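import Pool.Agent.H42EE.Final

set_option autoImplicit false

namespace Pool.Agent.H42EE

open MvPolynomial

variable {n d : ℕ}

/-- the substitution `z_l ↦ z_l + t z_k` -/
noncomputable def tv (l k : Fin n) (t : ℂ) : MvPolynomial (Fin n) ℂ →ₐ[ℂ] MvPolynomial (Fin n) ℂ :=
  aeval (fun j => X j + if j = l then C t * X k else 0)

lemma tv_X_self (l k : Fin n) (t : ℂ) : tv l k t (X l) = X l + C t * X k := by
  simp [tv]

lemma tv_X_ne (l k : Fin n) (t : ℂ) {j : Fin n} (hj : j ≠ l) : tv l k t (X j) = X j := by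
  simp [tv, hj]

lemma tv_C (l k : Fin n) (t c : ℂ) : tv l k t (C c) = C c := by
  simp [tv]

lemma tv_tv {l k : Fin n} (hkl : k ≠ l) (t : ℂ) (p : MvPolynomial (Fin n) ℂ) :
    tv l k t (tv l k (-t) p) = p := by
  have h : (tv l k t).comp (tv l k (-t)) = AlgHom.id ℂ _ := by
    apply MvPolynomial.algHom_ext
    intro j
    rw [AlgHom.comp_apply, AlgHom.id_apply]
    by_cases hj : j = l
    · subst hj
      rw [tv_X_self, map_add, map_mul, tv_X_self, tv_X_ne _ _ _ hkl, tv_C, C_neg]
      ring
    · rw [tv_X_ne _ _ _ hj, tv_X_ne _ _ _ hj]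
  exact DFunLike.congr_fun h p

lemma pderiv_tv {l k : Fin n} (hkl : k ≠ l) (t : ℂ) (j : Fin n) (p : MvPolynomial (Fin n) ℂ) :
    pderiv j (tv l k t p) = tv l k t (pderiv j p) +
      if j = k then C t * tv l k t (pderiv l p) else 0 := by
  induction p using MvPolynomial.induction_on with
  | C c => simp [tv]
  | add p q hp hq =>
    rw [map_add, map_add, hp, hq, map_add, map_add, map_add, map_add]
    split_ifs <;> ring
  | mul_X p i hp =>
    rw [map_mul, pderiv_mul, hp, pderiv_mul, pderiv_mul, map_add, map_add, map_mul, map_mul,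
      map_mul, map_mul]
    have h1 : pderiv j (tv l k t (X i)) = tv l k t (pderiv j (X i)) +
        if j = k then C t * tv l k t (pderiv l (X i)) else 0 := by
      by_cases hi : i = l
      · subst hi
        rw [tv_X_self, map_add, pderiv_C_mul, pderiv_X, pderiv_X, pderiv_X, Pi.single_eq_same,
          map_one]
        by_cases hj : j = i
        · subst hj
          rw [Pi.single_eq_same, map_one, if_neg hkl.symm, Pi.single_eq_of_ne hkl]; simp
        · rw [Pi.single_eq_of_ne (Ne.symm hj), map_zero]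
          by_cases hjk : j = k
          · subst hjk; simp
          · rw [if_neg hjk, Pi.single_eq_of_ne (Ne.symm hjk)]; simp
      · rw [tv_X_ne _ _ _ hi, pderiv_X, pderiv_X, Pi.single_eq_of_ne hi, map_zero, mul_zero,
          ite_self, add_zero]
        by_cases hj : j = i
        · subst hj; simp
        · rw [Pi.single_eq_of_ne (Ne.symm hj), map_zero]
    rw [h1]
    split_ifs <;> ring

/-- the coefficients of the transformed form -/
lemma exists_tv (l k : Fin n) (t : ℂ) (a : Exponent n d → ℂ) :
    ∃ b : Exponent n d → ℂ, form b = tv l k t (form a) := by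
  have h1 : (tv l k t (form a)).IsHomogeneous d := by
    have h2 : (aeval (fun j => X j + if j = l then C t * X k else 0) (form a) :
        MvPolynomial (Fin n) ℂ).IsHomogeneous (1 * d) := by
      apply (form_hom a).aeval
      intro j
      apply IsHomogeneous.add (isHomogeneous_X ℂ j)
      split_ifs
      · have := (isHomogeneous_C (Fin n) t).mul (isHomogeneous_X ℂ k)
        rwa [zero_add] at this
      · exact isHomogeneous_zero _ _ _
    rwa [one_mul] at h2
  exact ⟨_, (hom_expand h1).symm⟩

lemma eval_tv (l k : Fin n) (t : ℂ) (z : Fin n → ℂ) (p : MvPolynomial (Fin n) ℂ) :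
    eval z (tv l k t p) = eval (fun j => z j + if j = l then t * z k else 0) p := by
  induction p using MvPolynomial.induction_on with
  | C c => simp [tv]
  | add p q hp hq => rw [map_add, map_add, hp, hq, map_add]
  | mul_X p i hp =>
    rw [map_mul, map_mul, hp, map_mul, eval_X]
    congr 1
    by_cases hi : i = l
    · subst hi; rw [tv_X_self]; simp
    · rw [tv_X_ne _ _ _ hi]; simp [hi]

lemma tv_mem {l k : Fin n} (hkl : k ≠ l) (t : ℂ) {a b : Exponent n d → ℂ}
    (hb : form b = tv l k t (form a)) {p : MvPolynomial (Fin n) ℂ} (hp : p ∈ jacobianIdeal a) :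
    tv l k t p ∈ jacobianIdeal b := by
  have h0 : ∀ j, tv l k t (pderiv j (form a)) ∈ jacobianIdeal b := by
    have hne : ∀ j, j ≠ k → tv l k t (pderiv j (form a)) ∈ jacobianIdeal b := by
      intro j hj
      have h1 := pderiv_tv hkl t j (form a)
      rw [if_neg hj, add_zero, ← hb] at h1
      rw [← h1]
      exact Ideal.subset_span ⟨j, rfl⟩
    intro j
    by_cases hj : j = k
    · subst hj
      have h1 := pderiv_tv hkl t j (form a)
      rw [if_pos rfl, ← hb] at h1
      have h2 : tv l j t (pderiv j (form a)) =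
          pderiv j (form b) - C t * tv l j t (pderiv l (form a)) := by
        rw [h1]; ring
      rw [h2]
      exact Ideal.sub_mem _ (Ideal.subset_span ⟨j, rfl⟩) (Ideal.mul_mem_left _ _ (hne l hkl.symm))
    · exact hne j hj
  have h1 : jacobianIdeal a ≤ (jacobianIdeal b).comap (tv l k t) := by
    unfold jacobianIdeal at h0 ⊢
    rw [Ideal.span_le]
    rintro _ ⟨j, rfl⟩
    exact h0 j
  exact h1 hp

lemma nondegenerate_tv {l k : Fin n} (hkl : k ≠ l) (t : ℂ) {a b : Exponent n d → ℂ}
    (hb : form b = tv l k t (form a)) (ha : Nondegenerate a) : Nondegenerate b := by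
  intro z hz
  have h0 : ∀ p ∈ jacobianIdeal b, eval z p = 0 := by
    intro p hp
    have : jacobianIdeal b ≤ RingHom.ker (eval z) := by
      unfold jacobianIdeal
      rw [Ideal.span_le]
      rintro _ ⟨j, rfl⟩
      exact hz j
    exact this hp
  have h1 := ha (fun j => z j + if j = l then t * z k else 0) (fun j => by
    rw [← eval_tv]
    exact h0 _ (tv_mem hkl t hb (Ideal.subset_span ⟨j, rfl⟩)))
  have hk : z k = 0 := by
    have := congrFun h1 k
    simpa [hkl] using this
  funext j
  have := congrFun h1 j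
  simp only [hk, mul_zero, ite_self, add_zero] at this
  exact this

lemma tv_mon (l k : Fin n) (t : ℂ) {K : ℕ} (m : Exponent n K) :
    tv l k t (mon m) = (X l + C t * X k) ^ (m.1 l : ℕ) *
      ∏ j ∈ Finset.univ.erase l, X j ^ (m.1 j : ℕ) := by
  unfold mon
  rw [map_prod, ← Finset.mul_prod_erase _ _ (Finset.mem_univ l), map_pow, tv_X_self]
  congr 1
  apply Finset.prod_congr rfl
  intro j hj
  rw [map_pow, tv_X_ne _ _ _ (Finset.mem_erase.1 hj).1]

/-- A polynomial curve in an ideal has its linear coefficient in the ideal. -/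
lemma coeff_one_mem (J : Ideal (MvPolynomial (Fin n) ℂ)) (q : Polynomial (MvPolynomial (Fin n) ℂ))
    (hq : ∀ t : ℂ, q.eval (C t) ∈ J) (s : ℕ) : q.coeff s ∈ J := by
  have h0 : (Submodule.restrictScalars ℂ J).mkQ (q.coeff s) = 0 := by
    rw [← Module.forall_dual_apply_eq_zero_iff ℂ]
    intro φ
    -- the scalar polynomial
    set f : MvPolynomial (Fin n) ℂ →ₗ[ℂ] ℂ := φ.comp (Submodule.restrictScalars ℂ J).mkQ with hf
    let R : Polynomial ℂ := ∑ i ∈ Finset.range (q.natDegree + 1),
      Polynomial.C (f (q.coeff i)) * Polynomial.X ^ i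
    have hR : ∀ t : ℂ, R.eval t = 0 := by
      intro t
      have h1 : f (q.eval (C t)) = 0 := by
        rw [hf, LinearMap.comp_apply]
        have : (Submodule.restrictScalars ℂ J).mkQ (q.eval (C t)) = 0 := by
          rw [Submodule.mkQ_apply, Submodule.Quotient.mk_eq_zero]
          exact hq t
        rw [this, map_zero]
      rw [Polynomial.eval_eq_sum_range, map_sum] at h1
      simp only [R, Polynomial.eval_finsetSum, Polynomial.eval_mul, Polynomial.eval_C,
        Polynomial.eval_pow, Polynomial.eval_X]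
      rw [← h1]
      apply Finset.sum_congr rfl
      intro i _
      rw [← C_pow, mul_comm (q.coeff i), ← smul_eq_C_mul, map_smul, smul_eq_mul, mul_comm]
    have hR0 : R = 0 := Polynomial.funext (fun t => by rw [hR, Polynomial.eval_zero])
    by_cases hs : s ∈ Finset.range (q.natDegree + 1)
    · have h2 := congrArg (fun p => Polynomial.coeff p s) hR0
      simp only [R, Polynomial.finsetSum_coeff, Polynomial.coeff_C_mul_X_pow,
        Polynomial.coeff_zero] at h2
      rw [Finset.sum_ite_eq, if_pos hs] at h2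
      exact h2
    · rw [Finset.mem_range, not_lt] at hs
      rw [Polynomial.coeff_eq_zero_of_natDegree_lt (by omega), map_zero, map_zero]
  rw [Submodule.mkQ_apply, Submodule.Quotient.mk_eq_zero] at h0
  exact h0

/-- the exponents for which the monomial is in all Jacobian ideals of nondegenerate forms -/
def Bad {n : ℕ} (d : ℕ) {K : ℕ} (m : Exponent n K) : Prop :=
  ∀ a : Exponent n d → ℂ, Nondegenerate a → mon m ∈ jacobianIdeal a

lemma Bad.move {K : ℕ} {m m' : Exponent n K} (h : Bad d m) {l k : Fin n} (hkl : k ≠ l)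
    (hl : (m.1 l : ℕ) = m'.1 l + 1) (hk : (m'.1 k : ℕ) = m.1 k + 1)
    (ho : ∀ j, j ≠ l → j ≠ k → (m'.1 j : ℕ) = m.1 j) : Bad d m' := by
  intro a ha
  have h1 : ∀ t : ℂ, tv l k t (mon m) ∈ jacobianIdeal a := by
    intro t
    obtain ⟨b, hb⟩ := exists_tv l k (-t) a
    have hbn := nondegenerate_tv hkl (-t) hb ha
    have h2 := h b hbn
    have h3 : form a = tv l k t (form b) := by rw [hb, tv_tv hkl]
    exact tv_mem hkl t h3 h2
  set q : Polynomial (MvPolynomial (Fin n) ℂ) :=
    (Polynomial.C (X l) + Polynomial.X * Polynomial.C (X k)) ^ (m.1 l : ℕ) *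
      Polynomial.C (∏ j ∈ Finset.univ.erase l, X j ^ (m.1 j : ℕ)) with hq
  have h2 : ∀ t : ℂ, q.eval (C t) ∈ jacobianIdeal a := by
    intro t
    have := h1 t
    rw [tv_mon] at this
    rw [hq, Polynomial.eval_mul, Polynomial.eval_pow, Polynomial.eval_add, Polynomial.eval_mul,
      Polynomial.eval_C, Polynomial.eval_X, Polynomial.eval_C, Polynomial.eval_C]
    exact this
  have h3 := coeff_one_mem _ q h2 1
  have h4 : q.coeff 1 = C ((m.1 l : ℕ) : ℂ) * mon m' := by
    have h5 : q.coeff 1 = (Polynomial.derivative q).eval 0 := by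
      rw [← Polynomial.coeff_zero_eq_eval_zero, Polynomial.coeff_derivative]
      simp
    rw [h5, hq, Polynomial.derivative_mul, Polynomial.derivative_C, mul_zero, add_zero,
      Polynomial.derivative_pow, Polynomial.derivative_add, Polynomial.derivative_C, zero_add,
      Polynomial.derivative_mul, Polynomial.derivative_X, Polynomial.derivative_C, mul_zero,
      add_zero, one_mul]
    simp only [Polynomial.eval_mul, Polynomial.eval_pow, Polynomial.eval_add, Polynomial.eval_C,
      Polynomial.eval_X, zero_mul, add_zero]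
    have h6 : mon m' = X l ^ ((m.1 l : ℕ) - 1) * (X k *
        ∏ j ∈ Finset.univ.erase l, X j ^ (m.1 j : ℕ)) := by
      unfold mon
      rw [← Finset.mul_prod_erase _ _ (Finset.mem_univ l)]
      congr 1
      · congr 1; omega
      · have hkm : k ∈ Finset.univ.erase l := Finset.mem_erase.2 ⟨hkl, Finset.mem_univ k⟩
        rw [← Finset.mul_prod_erase _ _ hkm, ← Finset.mul_prod_erase _ (fun j =>
          (X j : MvPolynomial (Fin n) ℂ) ^ (m.1 j : ℕ)) hkm, ← mul_assoc, hk, pow_succ']
        congr 1
        apply Finset.prod_congr rfl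
        intro j hj
        rw [Finset.mem_erase, Finset.mem_erase] at hj
        rw [ho j hj.2.1 hj.1]
    rw [h6]
    have h7 : (C ((m.1 l : ℕ) : ℂ) : MvPolynomial (Fin n) ℂ) = ((m.1 l : ℕ) : _) := by
      rw [map_natCast]
    rw [h7]
    ring
  rw [h4] at h3
  have hne : ((m.1 l : ℕ) : ℂ) ≠ 0 := by
    rw [hl]; exact_mod_cast Nat.succ_ne_zero (m'.1 l : ℕ)
  have h8 := Ideal.mul_mem_left _ (C ((m.1 l : ℕ) : ℂ)⁻¹) h3
  rwa [← mul_assoc, ← C_mul, inv_mul_cancel₀ hne, C_1, one_mul] at h8

lemma Bad.all {K : ℕ} {m : Exponent n K} (h : Bad d m) (m' : Exponent n K) : Bad d m' := by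
  have key : ∀ (N : ℕ) (m : Exponent n K), ∑ j, ((m.1 j : ℕ) - (m'.1 j : ℕ)) = N → Bad d m →
      Bad d m' := by
    intro N
    induction N with
    | zero =>
      intro m hm hB
      rw [Finset.sum_eq_zero_iff] at hm
      have hle : ∀ j ∈ Finset.univ, (m.1 j : ℕ) ≤ m'.1 j := fun j hj => by
        have := hm j hj; omega
      have heq := (Finset.sum_eq_sum_iff_of_le hle).1 (by rw [m.2, m'.2])
      have : m = m' := by
        apply Subtype.ext
        funext j
        exact Fin.ext (heq j (Finset.mem_univ j))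
      rwa [← this]
    | succ N ih =>
      intro m hm hB
      obtain ⟨l, hl⟩ : ∃ l, (m'.1 l : ℕ) < m.1 l := by
        by_contra hcon
        push Not at hcon
        rw [Finset.sum_eq_zero (fun j _ => by have := hcon j; omega)] at hm
        omega
      obtain ⟨k, hk⟩ : ∃ k, (m.1 k : ℕ) < m'.1 k := by
        by_contra hcon
        push Not at hcon
        have h1 : ∑ j, (m'.1 j : ℕ) < ∑ j, (m.1 j : ℕ) :=
          Finset.sum_lt_sum (fun j _ => hcon j) ⟨l, Finset.mem_univ l, hl⟩
        rw [m.2, m'.2] at h1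
        exact lt_irrefl _ h1
      have hkl : k ≠ l := by rintro rfl; omega
      let m2 : Exponent n K := ⟨fun j => if j = l then ⟨(m.1 l : ℕ) - 1, by omega⟩ else
        if j = k then ⟨(m.1 k : ℕ) + 1, by omega⟩ else m.1 j, by
        rw [← Finset.add_sum_erase _ _ (Finset.mem_univ l)]
        have hkm : k ∈ Finset.univ.erase l := Finset.mem_erase.2 ⟨hkl, Finset.mem_univ k⟩
        rw [← Finset.add_sum_erase _ _ hkm]
        simp only [if_true, if_neg hkl]
        have h2 : ∀ j ∈ (Finset.univ.erase l).erase k,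
            (((if j = l then ⟨(m.1 l : ℕ) - 1, by omega⟩ else
              if j = k then ⟨(m.1 k : ℕ) + 1, by omega⟩ else m.1 j : Fin (K + 1))) : ℕ) =
              (m.1 j : ℕ) := by
          intro j hj
          rw [Finset.mem_erase, Finset.mem_erase] at hj
          rw [if_neg hj.2.1, if_neg hj.1]
        rw [Finset.sum_congr rfl h2]
        have h3 := m.2
        rw [← Finset.add_sum_erase _ _ (Finset.mem_univ l), ← Finset.add_sum_erase _ _ hkm] at h3
        omega⟩
      have e1 : (m2.1 l : ℕ) = m.1 l - 1 := by simp [m2]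
      have e2 : (m2.1 k : ℕ) = m.1 k + 1 := by simp [m2, hkl]
      have e3 : ∀ j, j ≠ l → j ≠ k → (m2.1 j : ℕ) = m.1 j := by
        intro j h1 h2
        simp [m2, h1, h2]
      refine ih m2 ?_ (hB.move hkl (by omega) e2 e3)
      have hkm : k ∈ Finset.univ.erase l := Finset.mem_erase.2 ⟨hkl, Finset.mem_univ k⟩
      rw [← Finset.add_sum_erase _ _ (Finset.mem_univ l), ← Finset.add_sum_erase _ _ hkm] at hm ⊢
      have e4 : ∑ x ∈ (Finset.univ.erase l).erase k, ((m2.1 x : ℕ) - (m'.1 x : ℕ)) =
          ∑ x ∈ (Finset.univ.erase l).erase k, ((m.1 x : ℕ) - (m'.1 x : ℕ)) := by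
        apply Finset.sum_congr rfl
        intro j hj
        rw [Finset.mem_erase, Finset.mem_erase] at hj
        rw [e3 j hj.2.1 hj.1]
      rw [e4, e1, e2]
      omega
  exact key _ m rfl h

/-- No `μ_i` vanishes identically. -/
theorem mu_not_zero (hn : 2 ≤ n) (hd : 3 ≤ d) (i : Exponent n (n * (d - 2))) :
    ∃ a : Exponent n d → ℂ, Nondegenerate a ∧ mu i a ≠ 0 := by
  by_contra hcon
  push Not at hcon
  have hB : Bad d i := by
    intro a ha
    have h1 := mu_spec (by omega) (by omega) ha i
    rw [hcon a ha, C_0, zero_mul, sub_zero] at h1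
    exact h1
  obtain ⟨a, ha⟩ := exists_nondegenerate (n := n) (d := d) (by omega)
  exact not_all hn hd (a := a) (fun γ => hB.all γ a ha)

end Pool.Agent.H42EE
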