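import Pool.Agent.H42EE.Defs
import Pool.Agent.H42EE.Groebner
import Pool.Agent.H42EE.Order

set_option autoImplicit false

namespace Pool.Agent.H42EE

open MvPolynomial MonomialOrder

variable {n d : ℕ}

/-- The variables `z_j` and the coefficients. -/
abbrev Vr (n d : ℕ) : Type := Fin n ⊕ Exponent n d

noncomputable def E (m : Exponent n d) : Vr n d →₀ ℕ :=
  Finsupp.single (Sum.inr m) 1 + ∑ j, Finsupp.single (Sum.inl j) (m.1 j : ℕ)

lemma E_inr (m m' : Exponent n d) : E m (Sum.inr m') = if m = m' then 1 else 0 := by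
  classical
  rw [E, Finsupp.add_apply, Finsupp.single_apply, Finsupp.finsetSum_apply, Finset.sum_eq_zero]
  · simp
  · intro i _
    rw [Finsupp.single_apply, if_neg (by simp)]

lemma E_inl (m : Exponent n d) (j : Fin n) : E m (Sum.inl j) = (m.1 j : ℕ) := by
  classical
  rw [E, Finsupp.add_apply, Finsupp.single_apply, if_neg (by simp), zero_add,
    Finsupp.finsetSum_apply, Finset.sum_eq_single j]
  · simp
  · intro i _ hij
    rw [Finsupp.single_apply, if_neg (by simpa using hij)]
  · simp

/-- The exponents after one or two differentiations. -/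
noncomputable def T1 (j : Fin n) (m : Exponent n d) : Vr n d →₀ ℕ :=
  E m - Finsupp.single (Sum.inl j) 1

noncomputable def T2 (i j : Fin n) (m : Exponent n d) : Vr n d →₀ ℕ :=
  T1 j m - Finsupp.single (Sum.inl i) 1

/-- The universal form. -/
noncomputable def U (n d : ℕ) : MvPolynomial (Vr n d) ℂ :=
  ∑ m : Exponent n d, X (Sum.inr m) * ∏ j, X (Sum.inl j) ^ (m.1 j : ℕ)

lemma U_eq : U n d = ∑ m : Exponent n d, monomial (E m) 1 := by
  unfold U
  apply Finset.sum_congr rfl
  intro m _
  have h1 : (monomial (E m) (1 : ℂ)) = monomial (Finsupp.single (Sum.inr m) 1) 1 *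
      monomial (∑ j, Finsupp.single (Sum.inl j) (m.1 j : ℕ)) 1 := by
    rw [monomial_mul, one_mul]; rfl
  rw [h1, monomial_sum_one]
  congr 1
  apply Finset.prod_congr rfl
  intro j _
  rw [X_pow_eq_monomial]

/-- The partial derivatives of the universal form. -/
noncomputable def UF (j : Fin n) : MvPolynomial (Vr n d) ℂ := pderiv (Sum.inl j) (U n d)

/-- The matrix of the second derivatives of the universal form. -/
noncomputable def UM (i j : Fin n) : MvPolynomial (Vr n d) ℂ := pderiv (Sum.inl i) (UF (d := d) j)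

noncomputable def UH (n d : ℕ) : MvPolynomial (Vr n d) ℂ :=
  (Matrix.of fun i j : Fin n => UM (d := d) i j).det

lemma UF_eq (j : Fin n) : UF (d := d) j =
    ∑ m : Exponent n d, monomial (T1 j m) ((m.1 j : ℕ) : ℂ) := by
  unfold UF
  rw [U_eq, map_sum]
  apply Finset.sum_congr rfl
  intro m _
  rw [pderiv_monomial, E_inl, one_mul]
  rfl

lemma UM_eq (i j : Fin n) : UM (d := d) i j =
    ∑ m : Exponent n d, monomial (T2 i j m)
      (((m.1 j : ℕ) : ℂ) * ((T1 j m) (Sum.inl i) : ℕ)) := by
  unfold UM
  rw [UF_eq, map_sum]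
  apply Finset.sum_congr rfl
  intro m _
  rw [pderiv_monomial]
  rfl

/-- The exponent vector of `z_j ^ d`. -/
def spe (d : ℕ) (j : Fin n) : Exponent n d :=
  ⟨fun i => if i = j then Fin.last d else 0, by
    rw [Finset.sum_eq_single j]
    · simp
    · intro i _ hij
      simp [hij]
    · simp⟩

lemma spe_val (j i : Fin n) : ((spe d j).1 i : ℕ) = if i = j then d else 0 := by
  unfold spe
  split_ifs with h <;> simp [h]

lemma spe_inj (hd : 1 ≤ d) : Function.Injective (spe (n := n) d) := by
  intro i j hij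
  have h1 := spe_val (d := d) i i
  rw [hij, spe_val, if_pos rfl] at h1
  by_contra hne
  rw [if_neg hne] at h1
  omega

lemma eq_spe {m : Exponent n d} {j : Fin n} (h : ∀ i, i ≠ j → (m.1 i : ℕ) = 0) : m = spe d j := by
  have hs := m.2
  rw [Finset.sum_eq_single j (fun i _ hi => h i hi) (by simp)] at hs
  apply Subtype.ext
  funext i
  apply Fin.ext
  rw [spe_val]
  split_ifs with hi
  · rw [hi]; exact hs
  · exact h i hi

/-- exponent after one derivative -/
lemma T_inr (j : Fin n) (m m' : Exponent n d) :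
    (T1 j m) (Sum.inr m') = if m = m' then 1 else 0 := by
  classical
  rw [T1, Finsupp.tsub_apply, E_inr, Finsupp.single_apply,
    if_neg (show ¬ (Sum.inl j : Vr n d) = Sum.inr m' from Sum.inl_ne_inr), Nat.sub_zero]

lemma T_inl (j : Fin n) (m : Exponent n d) (i : Fin n) :
    (T1 j m) (Sum.inl i) = (m.1 i : ℕ) - if j = i then 1 else 0 := by
  rw [T1, Finsupp.tsub_apply, E_inl, Finsupp.single_apply]
  simp only [Sum.inl.injEq]

lemma T_inj (j : Fin n) {m m' : Exponent n d}
    (h : T1 j m = T1 j m') : m = m' := by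
  have h1 := T_inr j m m
  rw [h, T_inr, if_pos rfl] at h1
  by_contra hne
  rw [if_neg (fun h => hne h.symm)] at h1
  omega

lemma T2_inr (i j : Fin n) (m m' : Exponent n d) :
    (T2 i j m) (Sum.inr m') =
      if m = m' then 1 else 0 := by
  classical
  rw [T2, Finsupp.tsub_apply, T_inr, Finsupp.single_apply,
    if_neg (show ¬ (Sum.inl i : Vr n d) = Sum.inr m' from Sum.inl_ne_inr), Nat.sub_zero]

lemma T2_inl (i j : Fin n) (m : Exponent n d) (l : Fin n) :
    (T2 i j m) (Sum.inl l) =
      (m.1 l : ℕ) - (if j = l then 1 else 0) - if i = l then 1 else 0 := by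
  rw [T2, Finsupp.tsub_apply, T_inl, Finsupp.single_apply]
  simp only [Sum.inl.injEq]

lemma T2_inj (i j : Fin n) {m m' : Exponent n d}
    (h : T2 i j m =
      T2 i j m') : m = m' := by
  have h1 := T2_inr i j m m
  rw [h, T2_inr, if_pos rfl] at h1
  by_contra hne
  rw [if_neg (fun h => hne h.symm)] at h1
  omega

lemma coeff_UF (j : Fin n) (m : Exponent n d) :
    coeff (T1 j m) (UF (d := d) j) = ((m.1 j : ℕ) : ℂ) := by
  classical
  rw [UF_eq, coeff_sum, Finset.sum_eq_single m]
  · rw [coeff_monomial, if_pos rfl]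
  · intro b _ hb
    rw [coeff_monomial, if_neg (fun h => hb (T_inj j h))]
  · simp

lemma mem_support_UF {j : Fin n} {s : Vr n d →₀ ℕ} (hs : s ∈ (UF (d := d) j).support) :
    ∃ m : Exponent n d, s = T1 j m ∧ (m.1 j : ℕ) ≠ 0 := by
  classical
  rw [UF_eq] at hs
  obtain ⟨m, -, hm⟩ := Finset.mem_biUnion.1 (support_sum hs)
  rw [support_monomial] at hm
  split_ifs at hm with h0
  · simp at hm
  · refine ⟨m, by simpa using hm, ?_⟩
    intro h
    rw [h] at h0
    simp at h0

lemma coeff_UM (i j : Fin n) (m : Exponent n d) :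
    coeff (T2 i j m) (UM (d := d) i j) =
      (((m.1 j : ℕ) : ℂ) * ((T1 j m) (Sum.inl i) : ℕ)) := by
  classical
  rw [UM_eq, coeff_sum, Finset.sum_eq_single m]
  · rw [coeff_monomial, if_pos rfl]
  · intro b _ hb
    rw [coeff_monomial, if_neg (fun h => hb (T2_inj i j h))]
  · simp

lemma mem_support_UM {i j : Fin n} {s : Vr n d →₀ ℕ} (hs : s ∈ (UM (d := d) i j).support) :
    ∃ m : Exponent n d, s = T2 i j m ∧
      (m.1 j : ℕ) ≠ 0 ∧ (m.1 i : ℕ) - (if j = i then 1 else 0) ≠ 0 := by
  classical
  rw [UM_eq] at hs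
  obtain ⟨m, -, hm⟩ := Finset.mem_biUnion.1 (support_sum hs)
  rw [support_monomial] at hm
  split_ifs at hm with h0
  · simp at hm
  · refine ⟨m, by simpa using hm, ?_, ?_⟩
    · intro h
      rw [h] at h0
      simp at h0
    · intro h
      rw [T_inl, h] at h0
      simp at h0

section order

variable (m : MonomialOrder.{0, 0} (Vr n d))
  (hm : ∀ s t : Vr n d →₀ ℕ, (∀ i, s (Sum.inr (spe d i)) ≤ t (Sum.inr (spe d i))) →
      (∃ i, s (Sum.inr (spe d i)) < t (Sum.inr (spe d i))) → s ≺[m] t)

lemma UF_ne_zero (hd : 1 ≤ d) (j : Fin n) : UF (d := d) j ≠ 0 := by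
  intro h
  have h1 := coeff_UF (d := d) j (spe d j)
  rw [h, spe_val, if_pos rfl, coeff_zero] at h1
  have : (d : ℂ) = 0 := h1.symm
  norm_cast at this
  omega

include hm

lemma degree_UF (hd : 1 ≤ d) (j : Fin n) : m.degree (UF (d := d) j) =
    Finsupp.single (Sum.inr (spe d j)) 1 + Finsupp.single (Sum.inl j) (d - 1) := by
  have h0 : Finsupp.single (Sum.inr (spe d j)) 1 + Finsupp.single (Sum.inl j) (d - 1) =
      T1 j (spe d j) := by
    classical
    ext x
    rcases x with i | m'
    · rw [T_inl, spe_val, Finsupp.add_apply, Finsupp.single_apply, Finsupp.single_apply,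
        if_neg (by simp), zero_add]
      simp only [Sum.inl.injEq]
      by_cases h : i = j
      · subst h; simp
      · rw [if_neg h, if_neg (Ne.symm h)]; simp
    · rw [T_inr, Finsupp.add_apply, Finsupp.single_apply, Finsupp.single_apply]
      simp
  rw [h0]
  apply m.toSyn.injective
  apply le_antisymm
  · rw [MonomialOrder.degree_le_iff]
    intro s hs
    obtain ⟨m', rfl, hm'⟩ := mem_support_UF hs
    by_cases hsp : m' = spe d j
    · rw [hsp]
    apply le_of_lt
    have hz : ∀ i, (T1 j m') (Sum.inr (spe d i)) = 0 := by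
      intro i
      rw [T_inr, if_neg]
      rintro rfl
      rw [spe_val] at hm'
      by_cases h : j = i
      · subst h; exact hsp rfl
      · rw [if_neg h] at hm'; exact hm' rfl
    apply hm
    · intro i
      rw [hz]; exact Nat.zero_le _
    · refine ⟨j, ?_⟩
      rw [hz, T_inr, if_pos rfl]
      exact Nat.one_pos
  · apply MonomialOrder.le_degree
    rw [mem_support_iff, coeff_UF, spe_val, if_pos rfl]
    exact_mod_cast (by omega : d ≠ 0)

lemma degree_UM (hd : 2 ≤ d) (j : Fin n) : m.degree (UM (d := d) j j) =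
    Finsupp.single (Sum.inr (spe d j)) 1 + Finsupp.single (Sum.inl j) (d - 2) := by
  have h0 : Finsupp.single (Sum.inr (spe d j)) 1 + Finsupp.single (Sum.inl j) (d - 2) =
      T2 j j (spe d j) := by
    classical
    ext x
    rcases x with i | m'
    · rw [T2_inl, spe_val, Finsupp.add_apply, Finsupp.single_apply, Finsupp.single_apply,
        if_neg (by simp), zero_add]
      simp only [Sum.inl.injEq]
      by_cases h : i = j
      · subst h; simp; omega
      · rw [if_neg h, if_neg (Ne.symm h)]; simp
    · rw [T2_inr, Finsupp.add_apply, Finsupp.single_apply, Finsupp.single_apply]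
      simp
  rw [h0]
  apply m.toSyn.injective
  apply le_antisymm
  · rw [MonomialOrder.degree_le_iff]
    intro s hs
    obtain ⟨m', rfl, hm', -⟩ := mem_support_UM hs
    by_cases hsp : m' = spe d j
    · rw [hsp]
    apply le_of_lt
    have hz : ∀ i, (T2 j j m')
        (Sum.inr (spe d i)) = 0 := by
      intro i
      rw [T2_inr, if_neg]
      rintro rfl
      rw [spe_val] at hm'
      by_cases h : j = i
      · subst h; exact hsp rfl
      · rw [if_neg h] at hm'; exact hm' rfl
    apply hm
    · intro i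
      rw [hz]; exact Nat.zero_le _
    · refine ⟨j, ?_⟩
      rw [hz, T2_inr, if_pos rfl]
      exact Nat.one_pos
  · apply MonomialOrder.le_degree
    rw [mem_support_iff, coeff_UM, spe_val, if_pos rfl, T_inl, spe_val, if_pos rfl, if_pos rfl]
    rw [← Nat.cast_mul]
    exact_mod_cast (Nat.mul_pos (by omega : 0 < d) (by omega : 0 < d - 1)).ne'

lemma UM_ne_zero (hd : 2 ≤ d) (j : Fin n) : UM (d := d) j j ≠ 0 := by
  intro h
  have h1 := degree_UM m hm hd j
  rw [h, MonomialOrder.degree_zero] at h1
  have h2 := DFunLike.congr_fun h1 (Sum.inr (spe d j))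
  simp at h2

lemma degree_UM_inr (i j l : Fin n) (h0 : UM (d := d) i j ≠ 0) :
    m.degree (UM (d := d) i j) (Sum.inr (spe d l)) ≤ if i = l ∧ j = l then 1 else 0 := by
  obtain ⟨m', hs, h1, h2⟩ := mem_support_UM ((m.degree_mem_support_iff _).2 h0)
  rw [hs, T2_inr]
  by_cases h : m' = spe d l
  · subst h
    rw [spe_val] at h1 h2
    by_cases hj : j = l
    · subst hj
      by_cases hi : i = j
      · subst hi; simp
      · rw [if_neg hi] at h2; simp at h2
    · rw [if_neg hj] at h1; exact absurd rfl h1
  · rw [if_neg h]; exact Nat.zero_le _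

/-- the leading monomial of the Hessian determinant -/
lemma degree_UH (hn : 1 ≤ n) (hd : 2 ≤ d) : UH n d ≠ 0 ∧ m.degree (UH n d) =
    ∑ j, (Finsupp.single (Sum.inr (spe d j)) 1 + Finsupp.single (Sum.inl j) (d - 1 - 1)) := by
  classical
  set D0 : Vr n d →₀ ℕ :=
    ∑ j, (Finsupp.single (Sum.inr (spe d j)) 1 + Finsupp.single (Sum.inl j) (d - 1 - 1)) with hD0
  have hD0a : ∀ l, D0 (Sum.inr (spe d l)) = 1 := by
    intro l
    rw [hD0, Finsupp.finsetSum_apply, Finset.sum_eq_single l]
    · rw [Finsupp.add_apply, Finsupp.single_apply, Finsupp.single_apply, if_pos rfl,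
        if_neg (by simp), add_zero]
    · intro b _ hb
      rw [Finsupp.add_apply, Finsupp.single_apply, Finsupp.single_apply,
        if_neg (fun h => hb (spe_inj (by omega) (Sum.inr_injective h))), if_neg (by simp),
        add_zero]
    · simp
  have hdiag : m.degree (∏ i : Fin n, UM (d := d) i i) = D0 := by
    rw [m.degree_prod (fun i _ => UM_ne_zero m hm hd i), hD0]
    apply Finset.sum_congr rfl
    intro i _
    rw [degree_UM m hm hd]
    rfl
  have hdiag0 : ∏ i : Fin n, UM (d := d) i i ≠ 0 :=
    Finset.prod_ne_zero_iff.2 (fun i _ => UM_ne_zero m hm hd i)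
  have hD0pos : D0 ≠ 0 := by
    intro h
    have := hD0a ⟨0, hn⟩
    rw [h] at this
    simp at this
  -- the other terms
  set rest : MvPolynomial (Vr n d) ℂ := ∑ π ∈ Finset.univ.erase (1 : Equiv.Perm (Fin n)),
    Equiv.Perm.sign π • ∏ i, (Matrix.of fun i j : Fin n => UM (d := d) i j) (π i) i with hrest
  have hdet : UH n d = ∏ i : Fin n, UM (d := d) i i + rest := by
    unfold UH
    rw [Matrix.det_apply, ← Finset.add_sum_erase _ _ (Finset.mem_univ (1 : Equiv.Perm (Fin n)))]
    simp [hrest]
  have hlt : m.degree rest ≺[m] m.degree (∏ i : Fin n, UM (d := d) i i) := by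
    rw [hdiag, MonomialOrder.degree_lt_iff]
    · intro s hs
      obtain ⟨π, hπ, hsπ⟩ := Finset.mem_biUnion.1 (support_sum hs)
      have hπ1 : π ≠ 1 := (Finset.mem_erase.1 hπ).1
      have hs2 : s ∈ (∏ i, UM (d := d) (π i) i).support := by
        rw [mem_support_iff] at hsπ ⊢
        intro h
        apply hsπ
        rcases Int.units_eq_one_or (Equiv.Perm.sign π) with h1 | h1
        · rw [h1, one_smul]; exact h
        · rw [h1, Units.neg_smul, one_smul, coeff_neg]
          simpa using h
      by_cases hp0 : ∏ i, UM (d := d) (π i) i = 0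
      · rw [hp0] at hs2; simp at hs2
      have hne : ∀ i ∈ Finset.univ, UM (d := d) (π i) i ≠ 0 := Finset.prod_ne_zero_iff.1 hp0
      refine lt_of_le_of_lt (m.le_degree hs2) ?_
      rw [m.degree_prod hne]
      have hle : ∀ l, (∑ i, m.degree (UM (d := d) (π i) i)) (Sum.inr (spe d l)) ≤
          if π l = l then 1 else 0 := by
        intro l
        rw [Finsupp.finsetSum_apply]
        calc ∑ i, m.degree (UM (d := d) (π i) i) (Sum.inr (spe d l))
            ≤ ∑ i, if π i = l ∧ i = l then 1 else 0 :=
              Finset.sum_le_sum (fun i _ => degree_UM_inr m hm (π i) i l (hne i (Finset.mem_univ i)))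
          _ ≤ if π l = l then 1 else 0 := by
              rw [Finset.sum_eq_single l]
              · simp
              · intro b _ hb
                rw [if_neg (fun h => hb h.2)]
              · simp
      apply hm
      · intro l
        rw [hD0a]
        refine (hle l).trans ?_
        split_ifs <;> omega
      · obtain ⟨l, hl⟩ : ∃ l, π l ≠ l := by
          by_contra hcon
          push Not at hcon
          exact hπ1 (Equiv.ext hcon)
        refine ⟨l, ?_⟩
        rw [hD0a]
        have := hle l
        rw [if_neg hl] at this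
        omega
    · rw [map_zero, MonomialOrder.toSyn_lt_iff_ne_zero]
      intro h
      exact hD0pos ((m.toSyn_eq_zero_iff _).1 h)
  constructor
  · intro h0
    have h1 := m.leadingCoeff_add_of_lt hlt
    rw [← hdet, h0, MonomialOrder.leadingCoeff_zero] at h1
    exact hdiag0 (m.leadingCoeff_eq_zero_iff.1 h1.symm)
  · rw [hdet, m.degree_add_of_lt hlt, hdiag]

end order

end Pool.Agent.H42EE
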